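import Pool.Agent.V11233.SR.Inc

/-!
The witness automata.
-/

set_option autoImplicit false

namespace Pool.Agent.V11233.SR

/-- the kinds of labels -/
inductive WK : Type
  | start : WK
  | push : WK
  | pop : WK
  | close : WK

theorem WK_finite : Finite WK := by
  let f : WK → Fin 4 := fun x => match x with
    | .start => 0
    | .push => 1
    | .pop => 2
    | .close => 3
  refine Finite.of_injective f ?_
  intro x y h
  cases x <;> cases y <;> simp_all [f]

/-- the labels -/
abbrev Lb (N : ℕ) : Type := WK × Fin N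

variable {N : ℕ}

/-- the letter read while pushing -/
def ev (j : Fin N) : Fin (2 * N) := ⟨2 * j.val, by omega⟩

/-- the letter read while popping -/
def od (j : Fin N) : Fin (2 * N) := ⟨2 * j.val + 1, by omega⟩

/-- the state before the phase `j` -/
def s0 (j : Fin N) : Fin (2 * N + 1) := ⟨2 * j.val, by omega⟩

/-- the state in the phase `j` -/
def s1 (j : Fin N) : Fin (2 * N + 1) := ⟨2 * j.val + 1, by omega⟩

/-- the state after the phase `j` -/
def s2 (j : Fin N) : Fin (2 * N + 1) := ⟨2 * j.val + 2, by omega⟩

/-- tops -/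
def wtop : Lb N → Bool
  | (.start, _) => false
  | (.push, _) => true
  | (.pop, _) => true
  | (.close, _) => true

/-- sources -/
def wsrc : Lb N → Fin (2 * N + 1)
  | (.start, j) => s0 j
  | (.push, j) => s1 j
  | (.pop, j) => s1 j
  | (.close, j) => s1 j

/-- inputs -/
def winp : Lb N → List (Fin (2 * N))
  | (.start, j) => [ev j]
  | (.push, j) => [ev j]
  | (.pop, j) => [od j]
  | (.close, j) => [od j]

/-- the bottom of the pushdown in the phase `j` -/
def bot (j : Fin N) : List Bool := if j.val + 1 < N then [false] else []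

/-- pushed words -/
def wpsh : Lb N → List Bool
  | (.start, j) => bot j ++ [true]
  | (.push, _) => [true, true]
  | (.pop, _) => []
  | (.close, _) => []

/-- targets -/
def wtgt : Lb N → Fin (2 * N + 1)
  | (.start, j) => s1 j
  | (.push, j) => s1 j
  | (.pop, j) => s1 j
  | (.close, j) => s2 j

/-- the relation -/
def wR (x y : Lb N) : Prop := x.1 = .start ∧ y.1 = .start ∧ y.2.val = x.2.val + 1

theorem s0_inj {i j : Fin N} (h : s0 i = s0 j) : i = j := by
  have := congrArg Fin.val h
  simp only [s0] at this
  exact Fin.ext (by omega)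

theorem s1_inj {i j : Fin N} (h : s1 i = s1 j) : i = j := by
  have := congrArg Fin.val h
  simp only [s1] at this
  exact Fin.ext (by omega)

theorem s0_s1 {i j : Fin N} : s0 i ≠ s1 j := by
  intro h
  have := congrArg Fin.val h
  simp only [s0, s1] at this
  omega

theorem s1_s2 {i j : Fin N} : s1 i ≠ s2 j := by
  intro h
  have := congrArg Fin.val h
  simp only [s1, s2] at this
  omega

theorem w_inj : ∀ x y : Lb N, wtop x = wtop y → wsrc x = wsrc y → winp x = winp y →
    wpsh x = wpsh y → wtgt x = wtgt y → x = y := by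
  rintro ⟨a, i⟩ ⟨b, j⟩ h1 h2 h3 h4 h5
  cases a <;> cases b
  · exact Prod.ext rfl (s0_inj h2)
  · exact absurd h2 s0_s1
  · exact absurd h2 s0_s1
  · exact absurd h2 s0_s1
  · exact absurd h2.symm s0_s1
  · exact Prod.ext rfl (s1_inj h2)
  · simp [wpsh] at h4
  · simp [wpsh] at h4
  · exact absurd h2.symm s0_s1
  · simp [wpsh] at h4
  · exact Prod.ext rfl (s1_inj h2)
  · exact absurd h5 s1_s2
  · exact absurd h2.symm s0_s1
  · simp [wpsh] at h4
  · exact absurd h5.symm s1_s2
  · exact Prod.ext rfl (s1_inj h2)

/-- the witness automaton with `N` phases -/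
def WM (N : ℕ) (hN : 1 ≤ N) : SPDA (Fin (2 * N)) where
  Q := Fin (2 * N + 1)
  Γ := Bool
  Ψ := Lb N
  finQ := inferInstance
  finΓ := inferInstance
  finΨ := by
    have := WK_finite
    infer_instance
  top := wtop
  src := wsrc
  inp := winp
  psh := wpsh
  tgt := wtgt
  rule_inj := w_inj
  q0 := ⟨0, by omega⟩
  qt := ⟨2, by omega⟩
  Z0 := false
  F := {x | x.val = 2 * N}
  R := wR

/-- the computations of the witness automaton -/
def WC (N : ℕ) (hN : 1 ≤ N) (α : List Bool) (q : Fin (2 * N + 1)) (v : List (Fin (2 * N)))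
    (μ : List (Lb N)) (β : List Bool) (p : Fin (2 * N + 1)) (u : List (Fin (2 * N))) : Prop :=
  (WM N hN).Comp α q v μ β p u

/-- the relation between heads for the witness automaton -/
def WHR (b c : List (Lb N)) : Prop :=
  ∃ r s, b.head? = some r ∧ c.head? = some s ∧ wR r s

theorem WM_lang {hN : 1 ≤ N} {n : ℕ} {w : List (Fin (2 * N))} : w ∈ (WM N hN).lang n ↔
    ∃ f : Fin (2 * N + 1), f.val = 2 * N ∧
      ∃ k : ℕ, 1 ≤ k ∧ ∃ (b : List (Lb N)) (L : List (List (Lb N))),
      L.length = n ∧ (∀ c ∈ b :: L, c.length = k) ∧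
      WC N hN [false] ⟨0, by omega⟩ w (b :: L).flatten [] f [] ∧
      (∃ (ν : List (Lb N)) (r : Lb N), b = ν ++ [r] ∧ wtgt r = ⟨2, by omega⟩ ∧
        ∀ s ∈ ν, wtgt s ≠ ⟨2, by omega⟩) ∧
      List.IsChain WHR (b :: L) := Iff.rfl

section
variable {hN : 1 ≤ N}

theorem WC.refl (α : List Bool) (q : Fin (2 * N + 1)) (v : List (Fin (2 * N))) :
    WC N hN α q v [] α q v := SPDA.Comp.nil (M := WM N hN) α q v

theorem WC.cons (r : Lb N) (α : List Bool) (v : List (Fin (2 * N))) {μ : List (Lb N)}
    {β : List Bool} {p : Fin (2 * N + 1)} {u : List (Fin (2 * N))}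
    (h : WC N hN (α ++ wpsh r) (wtgt r) v μ β p u) :
    WC N hN (α ++ [wtop r]) (wsrc r) (winp r ++ v) (r :: μ) β p u :=
  SPDA.Comp.cons (M := WM N hN) r α v μ β p u h

theorem WC.append {α β β' : List Bool} {q p p' : Fin (2 * N + 1)}
    {v u u' : List (Fin (2 * N))} {μ μ' : List (Lb N)}
    (h : WC N hN α q v μ β p u) (h' : WC N hN β p u μ' β' p' u') :
    WC N hN α q v (μ ++ μ') β' p' u' := Comp.append (M := WM N hN) h h'

theorem WC.cons_inv {α β : List Bool} {q p : Fin (2 * N + 1)} {v u : List (Fin (2 * N))}
    {r : Lb N} {μ : List (Lb N)} (h : WC N hN α q v (r :: μ) β p u) :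
    ∃ α' v', α = α' ++ [wtop r] ∧ q = wsrc r ∧
      v = winp r ++ v' ∧ WC N hN (α' ++ wpsh r) (wtgt r) v' μ β p u :=
  Comp.cons_inv (M := WM N hN) h

theorem WC.nil_inv {α β : List Bool} {q p : Fin (2 * N + 1)} {v u : List (Fin (2 * N))}
    (h : WC N hN α q v [] β p u) : α = β ∧ q = p ∧ v = u := Comp.nil_inv (M := WM N hN) h

theorem WC.split {μ : List (Lb N)} {α β' : List Bool} {q p' : Fin (2 * N + 1)}
    {v u' : List (Fin (2 * N))} {μ' : List (Lb N)} (h : WC N hN α q v (μ ++ μ') β' p' u') :
      ∃ β p u, WC N hN α q v μ β p u ∧ WC N hN β p u μ' β' p' u' :=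
  Comp.split (M := WM N hN) h

theorem WC.mono {μ : List (Lb N)} : ∀ {α β : List Bool} {q p : Fin (2 * N + 1)}
    {v u : List (Fin (2 * N))}, WC N hN α q v μ β p u → q.val ≤ p.val := by
  induction μ with
  | nil =>
    intro α β q p v u h
    rw [(WC.nil_inv h).2.1]
  | cons r μ ih =>
    intro α β q p v u h
    obtain ⟨α', v', -, h2, -, h4⟩ := WC.cons_inv h
    have h5 := ih h4
    have h6 : (wsrc r).val ≤ (wtgt r).val := by
      obtain ⟨a, j⟩ := r
      cases a <;> simp [wsrc, wtgt, s0, s1, s2]
    rw [h2]
    exact h6.trans h5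

theorem end_nil {α β : List Bool} {v u : List (Fin (2 * N))} {μ : List (Lb N)} {j : Fin N}
    (h : WC N hN α (s2 j) v μ β (s2 j) u) : μ = [] ∧ α = β ∧ v = u := by
  rcases μ with - | ⟨r, μ⟩
  · obtain ⟨h1, -, h3⟩ := WC.nil_inv h
    exact ⟨rfl, h1, h3⟩
  · exfalso
    obtain ⟨α', v', -, h2, -, h4⟩ := WC.cons_inv h
    have h5 := WC.mono h4
    obtain ⟨a, i⟩ := r
    have h6 := congrArg Fin.val h2
    cases a <;> simp only [wsrc, wtgt, s0, s1, s2] at h5 h6 <;> omega

theorem snoc_rep {α α0 : List Bool} {m : ℕ} (h0 : α0 = [false] ∨ α0 = [])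
    (h : α0 ++ List.replicate m true = α ++ [true]) :
    ∃ m', m = m' + 1 ∧ α = α0 ++ List.replicate m' true := by
  rcases m with - | m
  · exfalso
    rw [List.replicate_zero, List.append_nil] at h
    rcases h0 with rfl | rfl
    · rcases α with - | ⟨a, α⟩
      · simp at h
      · simp at h
    · simp at h
  · refine ⟨m, rfl, ?_⟩
    rw [List.replicate_succ', ← List.append_assoc] at h
    exact (List.append_inj_left' h rfl).symm

/-- The form of the rest of a phase. -/
theorem inner {j : Fin N} {α0 : List Bool} (h0 : α0 = [false] ∨ α0 = []) (c : List (Lb N)) :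
    ∀ {m : ℕ} {v u : List (Fin (2 * N))} {β : List Bool},
      WC N hN (α0 ++ List.replicate m true) (s1 j) v c β (s2 j) u →
      ∃ (m' P Q : ℕ) (v1 : List (Fin (2 * N))), β = α0 ++ List.replicate m' true ∧
        m + P = m' + Q ∧ P + Q = c.length ∧ v = v1 ++ u ∧
        ∀ a, v1.count a = if a = ev j then P else if a = od j then Q else 0 := by
  have hne : ev j ≠ od j := by
    intro h
    have := congrArg Fin.val h
    simp only [ev, od] at this
    omega
  induction c with
  | nil =>
    intro m v u β h
    exact absurd (WC.nil_inv h).2.1 s1_s2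
  | cons r c ih =>
    intro m v u β h
    obtain ⟨α', v', h1, h2, h3, h4⟩ := WC.cons_inv h
    obtain ⟨a, i⟩ := r
    cases a with
    | start => exact absurd h2.symm s0_s1
    | push =>
      have hi : j = i := s1_inj h2
      subst hi
      obtain ⟨m1, rfl, rfl⟩ := snoc_rep h0 h1
      have h5 : WC N hN (α0 ++ List.replicate (m1 + 2) true) (s1 j) v' c β (s2 j) u := by
        have e : α0 ++ List.replicate m1 true ++ wpsh (WK.push, j) =
            α0 ++ List.replicate (m1 + 2) true := by
          rw [List.append_assoc, List.replicate_add]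
          rfl
        rw [← e]
        exact h4
      obtain ⟨m', P, Q, v1, g1, g2, g3, g4, g5⟩ := ih h5
      refine ⟨m', P + 1, Q, ev j :: v1, g1, by omega, by rw [List.length_cons]; omega, ?_, ?_⟩
      · rw [h3, g4]
        rfl
      · intro a
        rw [List.count_cons, g5]
        by_cases ha : a = ev j
        · subst ha
          simp
        · have : ¬ ev j = a := fun h => ha h.symm
          simp [ha, this]
    | pop =>
      have hi : j = i := s1_inj h2
      subst hi
      obtain ⟨m1, rfl, rfl⟩ := snoc_rep h0 h1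
      have h5 : WC N hN (α0 ++ List.replicate m1 true) (s1 j) v' c β (s2 j) u := by
        have e : α0 ++ List.replicate m1 true ++ wpsh (WK.pop, j) =
            α0 ++ List.replicate m1 true := by
          simp [wpsh]
        rw [← e]
        exact h4
      obtain ⟨m', P, Q, v1, g1, g2, g3, g4, g5⟩ := ih h5
      refine ⟨m', P, Q + 1, od j :: v1, g1, by omega, by rw [List.length_cons]; omega, ?_, ?_⟩
      · rw [h3, g4]
        rfl
      · intro a
        rw [List.count_cons, g5]
        by_cases ha : a = od j
        · subst ha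
          simp [hne.symm]
        · have : ¬ od j = a := fun h => ha h.symm
          simp [ha, this]
    | close =>
      have hi : j = i := s1_inj h2
      subst hi
      obtain ⟨m1, rfl, rfl⟩ := snoc_rep h0 h1
      obtain ⟨rfl, h5, h6⟩ := end_nil h4
      refine ⟨m1, 0, 1, [od j], ?_, by omega, rfl, ?_, ?_⟩
      · rw [← h5]
        simp [wpsh]
      · rw [h3, h6]
        rfl
      · intro a
        by_cases ha : a = od j
        · subst ha
          simp [hne.symm]
        · have : ¬ od j = a := fun h => ha h.symm
          simp [ha, this]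

theorem two_word {j : Fin N} {P Q : ℕ} {v1 u : List (Fin (2 * N))} (hPQ : 1 + P = Q)
    (h : ∀ a, v1.count a = if a = ev j then P else if a = od j then Q else 0)
    {k : ℕ} (hk : 1 + P + Q = k) (b : ℕ) (hb : b = 2 * j.val + 2)
    (hu : ∀ a : Fin (2 * N), 2 * u.count a = if a.val < b then 0 else k) (a : Fin (2 * N)) :
    2 * (ev j :: (v1 ++ u)).count a = if a.val < 2 * j.val then 0 else k := by
  have h1 := hu a
  have hev : (ev j).val = 2 * j.val := rfl
  have hod : (od j).val = 2 * j.val + 1 := rfl
  have hne : od j ≠ ev j := by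
    intro h
    have := congrArg Fin.val h
    omega
  rw [List.count_cons, List.count_append, h a]
  by_cases ha : a = ev j
  · rw [if_pos ha, if_pos (by rw [ha]; simp)]
    rw [ha, if_pos (by rw [hev, hb]; omega)] at h1
    rw [ha, if_neg (by rw [hev]; omega)]
    omega
  · have h3 : ¬ ((ev j == a) = true) := fun h => ha (beq_iff_eq.1 h).symm
    rw [if_neg ha, if_neg h3]
    by_cases ha' : a = od j
    · rw [if_pos ha']
      rw [ha', if_pos (by rw [hod, hb]; omega)] at h1
      rw [ha', if_neg (by rw [hod]; omega)]
      omega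
    · rw [if_neg ha']
      have h2 : a.val ≠ 2 * j.val := fun h => ha (Fin.ext h)
      have h4 : a.val ≠ 2 * j.val + 1 := fun h => ha' (Fin.ext h)
      by_cases h5 : a.val < b
      · rw [if_pos h5] at h1
        rw [if_pos (by omega)]
        omega
      · rw [if_neg h5] at h1
        rw [if_neg (by omega)]
        omega

/-- The words accepted from the phase `j` on. -/
theorem phases {k : ℕ} {f : Fin (2 * N + 1)} (hf : f.val = 2 * N) (L : List (List (Lb N))) :
    ∀ (j : Fin N) (c : List (Lb N)) (w : List (Fin (2 * N))),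
      WC N hN [false] (s0 j) w (((WK.start, j) :: c) :: L).flatten [] f [] →
      (∀ b ∈ ((WK.start, j) :: c) :: L, b.length = k) →
      List.IsChain WHR (((WK.start, j) :: c) :: L) → L.length + j.val + 1 = N →
      ∀ a : Fin (2 * N), 2 * w.count a = if a.val < 2 * j.val then 0 else k := by
  induction L with
  | nil =>
    intro j c w h1 h2 h3 h4 a
    rw [List.flatten_cons, List.flatten_nil, List.append_nil] at h1
    have hk := h2 _ List.mem_cons_self
    rw [List.length_cons] at hk
    rw [List.length_nil] at h4
    obtain ⟨α', v', e1, -, e3, e4⟩ := WC.cons_inv h1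
    have hα : α' = [] := one_sing e1
    subst hα
    have hfj : f = s2 j := Fin.ext (by rw [hf]; simp only [s2]; omega)
    subst hfj
    have hbot : bot j = [] := by
      unfold bot
      rw [if_neg (by omega)]
    have e5 : WC N hN ([] ++ List.replicate 1 true) (s1 j) v' c [] (s2 j) [] := by
      have e : [] ++ wpsh (WK.start, j) = [] ++ List.replicate 1 true := by
        simp [wpsh, hbot]
      rw [← e]
      exact e4
    obtain ⟨m', P, Q, v1, g1, g2, g3, g4, g5⟩ := inner (Or.inr rfl) c e5
    have hm' : m' = 0 := by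
      rw [List.nil_append] at g1
      have := congrArg List.length g1
      simpa using this.symm
    subst hm'
    rw [e3, g4]
    refine two_word (by omega) g5 (by omega) _ rfl ?_ a
    intro a
    rw [if_pos (by have := a.2; omega)]
    simp
  | cons b L ih =>
    intro j c w h1 h2 h3 h4 a
    rw [List.flatten_cons] at h1
    have hk := h2 _ List.mem_cons_self
    rw [List.length_cons] at hk
    rw [List.length_cons] at h4
    rw [List.isChain_cons_cons] at h3
    obtain ⟨⟨x, y, i1, i2, i3, i4, i5⟩, h3⟩ := h3
    have i1' : (WK.start, j) = x := Option.some.inj i1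
    subst i1'
    obtain ⟨c', rfl⟩ : ∃ c', b = y :: c' := by
      rcases b with - | ⟨y', c'⟩
      · simp at i2
      · simp only [List.head?_cons, Option.some.injEq] at i2
        exact ⟨c', by rw [i2]⟩
    obtain ⟨y1, j'⟩ := y
    have i4' : y1 = .start := i4
    subst i4'
    have i5' : j'.val = j.val + 1 := i5
    obtain ⟨β, p, u, h5, h6⟩ := WC.split h1
    have h6' := h6
    rw [List.flatten_cons] at h6'
    obtain ⟨α2, v2, f1, f2, f3, -⟩ := WC.cons_inv h6'
    have hp : p = s2 j := by
      rw [f2]
      exact Fin.ext (by simp only [wsrc, s0, s2]; omega)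
    obtain ⟨α', v', e1, -, e3, e4⟩ := WC.cons_inv h5
    have hα : α' = [] := one_sing e1
    subst hα
    have hbot : bot j = [false] := by
      unfold bot
      rw [if_pos (by have := j'.2; omega)]
    have e5 : WC N hN ([false] ++ List.replicate 1 true) (s1 j) v' c β (s2 j) u := by
      have e : [] ++ wpsh (WK.start, j) = [false] ++ List.replicate 1 true := by
        simp [wpsh, hbot]
      rw [← e, ← hp]
      exact e4
    obtain ⟨m', P, Q, v1, g1, g2, g3, g4, g5⟩ := inner (Or.inl rfl) c e5
    have hm' : m' = 0 := by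
      rcases m' with - | m'
      · rfl
      · exfalso
        rw [List.replicate_succ', ← List.append_assoc] at g1
        rw [g1] at f1
        have := (List.append_inj_right' f1 rfl)
        simp [wtop] at this
    subst hm'
    have hβ : β = [false] := by simpa using g1
    subst hβ
    rw [e3, g4]
    refine two_word (by omega) g5 (by omega) (2 * j'.val) (by omega) ?_ a
    refine ih j' c' u ?_ (fun b hb => h2 b (List.mem_cons_of_mem _ hb)) h3 (by omega)
    have : s0 j' = p := by rw [f2]; rfl
    rw [this]
    exact h6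

/-- the labels of a phase -/
def blk (i : ℕ) (j : Fin N) : List (Lb N) :=
  (WK.start, j) :: (List.replicate i (WK.push, j) ++ (List.replicate i (WK.pop, j) ++
    [(WK.close, j)]))

theorem run_push (i : ℕ) (j : Fin N) (α : List Bool) (v : List (Fin (2 * N))) : ∀ m,
    WC N hN (α ++ List.replicate (m + 1) true) (s1 j) (List.replicate i (ev j) ++ v)
      (List.replicate i (WK.push, j)) (α ++ List.replicate (m + 1 + i) true) (s1 j) v := by
  induction i with
  | zero => exact fun m => WC.refl _ _ _
  | succ i ih =>
    intro m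
    have h1 := ih (m + 1)
    have e : α ++ List.replicate (m + 1 + 1) true =
        (α ++ List.replicate m true) ++ wpsh (WK.push, j) := by
      rw [List.append_assoc, Nat.add_assoc, List.replicate_add]
      rfl
    rw [e] at h1
    have h2 := WC.cons (hN := hN) (WK.push, j) (α ++ List.replicate m true)
      (List.replicate i (ev j) ++ v) h1
    have e2 : α ++ List.replicate (m + 1) true = (α ++ List.replicate m true) ++
        [wtop (WK.push, j)] := by
      rw [List.append_assoc, List.replicate_add]
      rfl
    rw [e2]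
    have e3 : m + 1 + (i + 1) = m + 1 + 1 + i := by omega
    rw [e3]
    exact h2

theorem run_pop (i : ℕ) (j : Fin N) (α : List Bool) (v : List (Fin (2 * N))) : ∀ m,
    WC N hN (α ++ List.replicate (m + i) true) (s1 j) (List.replicate i (od j) ++ v)
      (List.replicate i (WK.pop, j)) (α ++ List.replicate m true) (s1 j) v := by
  induction i with
  | zero => exact fun m => WC.refl _ _ _
  | succ i ih =>
    intro m
    have h1 := ih m
    have e : α ++ List.replicate (m + i) true =
        (α ++ List.replicate (m + i) true) ++ wpsh (WK.pop, j) := by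
      simp [wpsh]
    rw [e] at h1
    have h2 := WC.cons (hN := hN) (WK.pop, j) (α ++ List.replicate (m + i) true)
      (List.replicate i (od j) ++ v) h1
    have e2 : α ++ List.replicate (m + (i + 1)) true = (α ++ List.replicate (m + i) true) ++
        [wtop (WK.pop, j)] := by
      rw [List.append_assoc, ← Nat.add_assoc, List.replicate_add]
      rfl
    rw [e2]
    exact h2

theorem run_blk (i : ℕ) (j : Fin N) (v : List (Fin (2 * N))) :
    WC N hN [false] (s0 j) (List.replicate (i + 1) (ev j) ++ (List.replicate (i + 1) (od j) ++ v))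
      (blk i j) (bot j) (s2 j) v := by
  have h1 : WC N hN (bot j ++ List.replicate 1 true) (s1 j) ([od j] ++ v) [(WK.close, j)]
      (bot j) (s2 j) v := by
    have h := WC.cons (hN := hN) (WK.close, j) (bot j) v (WC.refl _ _ _)
    have e : bot j ++ wpsh (WK.close, j) = bot j := by simp [wpsh]
    rw [e] at h
    exact h
  have h2 := run_pop (hN := hN) i j (bot j) ([od j] ++ v) 1
  have h3 := run_push (hN := hN) i j (bot j) (List.replicate i (od j) ++ ([od j] ++ v)) 0
  rw [Nat.zero_add] at h3
  have h4 := h3.append (h2.append h1)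
  have h5 := WC.cons (hN := hN) (WK.start, j) [] _ h4
  have e : List.replicate (i + 1) (ev j) ++ (List.replicate (i + 1) (od j) ++ v) =
      winp (WK.start, j) ++
        (List.replicate i (ev j) ++ (List.replicate i (od j) ++ ([od j] ++ v))) := by
    rw [List.replicate_succ, List.replicate_succ']
    simp [winp]
  rw [e]
  exact h5

theorem blk_length (i : ℕ) (j : Fin N) : (blk i j).length = 2 * (i + 1) := by
  simp [blk]
  omega

/-- The words with equal numbers of letters are accepted. -/
theorem accept (i : ℕ) (m : ℕ) : ∀ j : Fin N, m + j.val + 1 = N →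
    ∃ (w : List (Fin (2 * N))) (f : Fin (2 * N + 1)) (L : List (List (Lb N))), L.length = m ∧
      (∀ b ∈ L, b.length = 2 * (i + 1)) ∧ f.val = 2 * N ∧
      WC N hN [false] (s0 j) w (blk i j :: L).flatten [] f [] ∧
      List.IsChain WHR (blk i j :: L) ∧ w.Pairwise (· ≤ ·) ∧
      ∀ a : Fin (2 * N), w.count a = if a.val < 2 * j.val then 0 else i + 1 := by
  have hcount : ∀ (j : Fin N) (w : List (Fin (2 * N))) (b : ℕ), b = 2 * j.val + 2 →
      (∀ a : Fin (2 * N), w.count a = if a.val < b then 0 else i + 1) →
      ∀ a : Fin (2 * N), (List.replicate (i + 1) (ev j) ++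
        (List.replicate (i + 1) (od j) ++ w)).count a =
          if a.val < 2 * j.val then 0 else i + 1 := by
    intro j w b hb hw a
    have h1 := hw a
    have hev : (ev j).val = 2 * j.val := rfl
    have hod : (od j).val = 2 * j.val + 1 := rfl
    have hne : ¬ ev j = od j := by
      intro h
      have := congrArg Fin.val h
      omega
    have hne' : ¬ od j = ev j := fun h => hne h.symm
    rw [List.count_append, List.count_append, List.count_replicate, List.count_replicate]
    by_cases ha : a = ev j
    · have hv : a.val = 2 * j.val := by rw [ha, hev]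
      have c1 : (ev j == a) = true := beq_iff_eq.2 ha.symm
      have c2 : ¬ ((od j == a) = true) := fun h => hne' ((beq_iff_eq.1 h).trans ha)
      rw [if_pos (by omega)] at h1
      rw [if_pos c1, if_neg c2, h1, if_neg (by omega)]
    · by_cases ha' : a = od j
      · have hv : a.val = 2 * j.val + 1 := by rw [ha', hod]
        have c1 : ¬ ((ev j == a) = true) := fun h => ha (beq_iff_eq.1 h).symm
        have c2 : (od j == a) = true := beq_iff_eq.2 ha'.symm
        rw [if_pos (by omega)] at h1
        rw [if_neg c1, if_pos c2, h1, if_neg (by omega), Nat.zero_add]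
      · have h2 : a.val ≠ 2 * j.val := fun h => ha (Fin.ext h)
        have h4 : a.val ≠ 2 * j.val + 1 := fun h => ha' (Fin.ext h)
        have h6 : ¬ ((ev j == a) = true) := fun h => ha (beq_iff_eq.1 h).symm
        have h7 : ¬ ((od j == a) = true) := fun h => ha' (beq_iff_eq.1 h).symm
        rw [if_neg h6, if_neg h7, h1]
        by_cases h5 : a.val < b
        · rw [if_pos h5, if_pos (by omega)]
        · rw [if_neg h5, if_neg (by omega)]
          omega
  have hsort : ∀ (j : Fin N) (w : List (Fin (2 * N))), w.Pairwise (· ≤ ·) →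
      (∀ a ∈ w, 2 * j.val + 2 ≤ a.val) → (List.replicate (i + 1) (ev j) ++
        (List.replicate (i + 1) (od j) ++ w)).Pairwise (· ≤ ·) := by
    intro j w hw h
    rw [List.pairwise_append, List.pairwise_append]
    refine ⟨?_, ⟨?_, hw, ?_⟩, ?_⟩
    · rw [List.pairwise_replicate]
      exact Or.inr le_rfl
    · rw [List.pairwise_replicate]
      exact Or.inr le_rfl
    · intro a ha b hb
      rw [List.eq_of_mem_replicate ha, Fin.le_def]
      have := h b hb
      simp only [od]
      omega
    · intro a ha b hb
      rw [List.eq_of_mem_replicate ha, Fin.le_def]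
      rcases List.mem_append.1 hb with hb | hb
      · rw [List.eq_of_mem_replicate hb]
        simp only [ev, od]
        omega
      · have := h b hb
        simp only [ev]
        omega
  induction m with
  | zero =>
    intro j hj
    refine ⟨_, s2 j, [], rfl, by simp, ?_, ?_, by simp, hsort j [] List.Pairwise.nil (by simp),
      hcount j [] _ rfl ?_⟩
    · simp only [s2]
      omega
    · have h := run_blk (hN := hN) i j []
      have hbot : bot j = [] := by
        unfold bot
        rw [if_neg (by omega)]
      rw [hbot] at h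
      have e : ([blk i j] : List (List (Lb N))).flatten = blk i j := by simp
      rw [e]
      exact h
    · intro a
      rw [if_pos (by have := a.2; omega)]
      simp
  | succ m ih =>
    intro j hj
    obtain ⟨j', hj'⟩ : ∃ j' : Fin N, j'.val = j.val + 1 := ⟨⟨j.val + 1, by omega⟩, rfl⟩
    obtain ⟨w, f, L, h1, h2, h3, h4, h5, h6, h7⟩ := ih j' (by omega)
    refine ⟨_, f, blk i j' :: L, by rw [List.length_cons, h1], ?_, h3, ?_, ?_,
      hsort j w h6 ?_, hcount j w (2 * j'.val) (by omega) h7⟩
    · intro b hb
      rcases List.mem_cons.1 hb with rfl | hb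
      · exact blk_length i j'
      · exact h2 b hb
    · have h := run_blk (hN := hN) i j w
      have hbot : bot j = [false] := by
        unfold bot
        rw [if_pos (by have := j'.2; omega)]
      rw [hbot] at h
      rw [List.flatten_cons]
      refine h.append ?_
      have e : s2 j = s0 j' := Fin.ext (by simp only [s2, s0]; omega)
      rw [e]
      exact h4
    · rw [List.isChain_cons_cons]
      exact ⟨⟨_, _, rfl, rfl, rfl, rfl, hj'⟩, h5⟩
    · intro a ha
      by_contra hlt
      have h8 := h7 a
      rw [if_pos (by omega)] at h8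
      have h9 := List.count_pos_iff.2 ha
      omega

end

theorem WM_accept (n i : ℕ) : ∃ w ∈ (WM (n + 2) (by omega)).lang (n + 1),
    w.Pairwise (· ≤ ·) ∧ ∀ a, w.count a = i + 1 := by
  obtain ⟨w, f, L, h1, h2, h3, h4, h5, h6, h7⟩ := accept (N := n + 2) (hN := by omega) i (n + 1)
    ⟨0, by omega⟩ (by simp)
  refine ⟨w, WM_lang.2 ⟨f, h3, 2 * (i + 1), by omega, blk i ⟨0, by omega⟩, L, h1, ?_, h4, ?_, h5⟩,
    h6, fun a => ?_⟩
  · intro b hb
    rcases List.mem_cons.1 hb with rfl | hb
    · exact blk_length i _
    · exact h2 b hb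
  · refine ⟨(WK.start, ⟨0, by omega⟩) :: (List.replicate i (WK.push, ⟨0, by omega⟩) ++
      List.replicate i (WK.pop, ⟨0, by omega⟩)), (WK.close, ⟨0, by omega⟩), ?_, rfl, ?_⟩
    · simp [blk]
    · intro s hs
      simp only [List.mem_cons, List.mem_append, List.mem_replicate] at hs
      rcases hs with rfl | ⟨-, rfl⟩ | ⟨-, rfl⟩ <;> simp [wtgt, s1]
  · have := h7 a
    rw [if_neg (by simp)] at this
    exact this

theorem WM_equal (n : ℕ) : ∀ w ∈ (WM (n + 2) (by omega)).lang (n + 1),
    ∀ a b, w.count a = w.count b := by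
  intro w hw a b
  obtain ⟨f, hf, k, hk, b0, L, h1, h2, h3, -, h5⟩ := WM_lang.1 hw
  obtain ⟨j0, hj0⟩ : ∃ j0 : Fin (n + 2), j0.val = 0 := ⟨⟨0, by omega⟩, rfl⟩
  obtain ⟨x, c, rfl⟩ : ∃ x c, b0 = x :: c := by
    rcases b0 with - | ⟨x, c⟩
    · have := h2 [] (by simp)
      simp at this
      omega
    · exact ⟨_, _, rfl⟩
  have h3' := h3
  rw [List.flatten_cons] at h3'
  obtain ⟨α', v', -, e2, -, -⟩ := WC.cons_inv h3'
  have hx : x = (WK.start, j0) := by
    obtain ⟨y, j⟩ := x
    have h6 := congrArg Fin.val e2
    cases y <;> simp only [wsrc, s0, s1] at h6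
    · exact Prod.ext rfl (Fin.ext (by rw [hj0]; simp only; omega))
    · omega
    · omega
    · omega
  subst hx
  have hs0 : (⟨0, by omega⟩ : Fin (2 * (n + 2) + 1)) = s0 j0 := Fin.ext (by simp [s0, hj0])
  rw [hs0] at h3
  have h7 := phases (N := n + 2) (hN := by omega) (k := k) hf L j0 c w h3 h2 h5
    (by rw [h1, hj0])
  have h8 := h7 a
  have h9 := h7 b
  rw [hj0, if_neg (by omega)] at h8 h9
  omega

end Pool.Agent.V11233.SR
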