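import Pool.Agent.V11233.SR.Def

set_option autoImplicit false

namespace Pool.Agent.V11233.SR

variable {S : Type} {M : SPDA S}

theorem Comp.append {α β β' : List M.Γ} {q p p' : M.Q} {v u u' : List S} {μ μ' : List M.Ψ}
    (h : M.Comp α q v μ β p u) (h' : M.Comp β p u μ' β' p' u') :
    M.Comp α q v (μ ++ μ') β' p' u' := by
  induction h with
  | nil => exact h'
  | cons r α v μ β p u _ ih => exact SPDA.Comp.cons r α v _ _ _ _ (ih h')

theorem Comp.cons_inv {α β : List M.Γ} {q p : M.Q} {v u : List S} {r : M.Ψ} {μ : List M.Ψ}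
    (h : M.Comp α q v (r :: μ) β p u) : ∃ α' v', α = α' ++ [M.top r] ∧ q = M.src r ∧
      v = M.inp r ++ v' ∧ M.Comp (α' ++ M.psh r) (M.tgt r) v' μ β p u := by
  cases h with
  | cons _ α v _ _ _ _ h => exact ⟨α, v, rfl, rfl, rfl, h⟩

theorem Comp.nil_inv {α β : List M.Γ} {q p : M.Q} {v u : List S}
    (h : M.Comp α q v [] β p u) : α = β ∧ q = p ∧ v = u := by
  cases h with
  | nil => exact ⟨rfl, rfl, rfl⟩

theorem Comp.split {μ : List M.Ψ} : ∀ {α β' : List M.Γ} {q p' : M.Q} {v u' : List S}
    {μ' : List M.Ψ}, M.Comp α q v (μ ++ μ') β' p' u' →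
      ∃ β p u, M.Comp α q v μ β p u ∧ M.Comp β p u μ' β' p' u' := by
  induction μ with
  | nil =>
    intro α β' q p' v u' μ' h
    exact ⟨α, q, v, SPDA.Comp.nil _ _ _, h⟩
  | cons r μ ih =>
    intro α β' q p' v u' μ' h
    obtain ⟨α', v', rfl, rfl, rfl, h2⟩ := Comp.cons_inv h
    obtain ⟨β, p, u, h3, h4⟩ := ih h2
    exact ⟨β, p, u, SPDA.Comp.cons _ _ _ _ _ _ _ h3, h4⟩

theorem Comp.last {α β : List M.Γ} {q p : M.Q} {v u : List S} {ν : List M.Ψ} {r : M.Ψ}
    (h : M.Comp α q v (ν ++ [r]) β p u) : M.tgt r = p := by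
  obtain ⟨β', p', u', -, h2⟩ := Comp.split h
  obtain ⟨α', v', -, -, -, h3⟩ := Comp.cons_inv h2
  exact (Comp.nil_inv h3).2.1

/-- the states of the automaton with one more turn -/
inductive ES (M : SPDA S) : Type
  | i0 : ES M
  | t : ES M
  | one (q : M.Q) : ES M
  | two (q : M.Q) : ES M

/-- the labels of the automaton with one more turn -/
inductive EL (M : SPDA S) : Type
  | idle : EL M
  | turn : EL M
  | hat (r : M.Ψ) (h : M.src r = M.q0) : EL M
  | one (r : M.Ψ) (h : M.src r ≠ M.qt) : EL M
  | mid (r : M.Ψ) (h : M.src r = M.qt) : EL M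
  | two (r : M.Ψ) : EL M

theorem finES (M : SPDA S) : Finite (ES M) := by
  have := M.finQ
  let f : ES M → Bool ⊕ (Bool × M.Q) := fun x => match x with
    | .i0 => .inl false
    | .t => .inl true
    | .one q => .inr (false, q)
    | .two q => .inr (true, q)
  refine Finite.of_injective f ?_
  intro x y h
  cases x <;> cases y <;> simp_all [f]

theorem finEL (M : SPDA S) : Finite (EL M) := by
  have := M.finΨ
  let f : EL M → Bool ⊕ (Fin 4 × M.Ψ) := fun x => match x with
    | .idle => .inl false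
    | .turn => .inl true
    | .hat r _ => .inr (0, r)
    | .one r _ => .inr (1, r)
    | .mid r _ => .inr (2, r)
    | .two r => .inr (3, r)
  refine Finite.of_injective f ?_
  intro x y h
  cases x <;> cases y <;> simp_all [f]

/-- the top symbols of the new rules -/
def Etop : EL M → M.Γ
  | .idle => M.Z0
  | .turn => M.Z0
  | .hat r _ => M.top r
  | .one r _ => M.top r
  | .mid r _ => M.top r
  | .two r => M.top r

/-- the sources of the new rules -/
def Esrc : EL M → ES M
  | .idle => .i0
  | .turn => .i0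
  | .hat _ _ => .t
  | .one r _ => .one (M.src r)
  | .mid r _ => .one (M.src r)
  | .two r => .two (M.src r)

/-- the inputs of the new rules -/
def Einp : EL M → List S
  | .idle => []
  | .turn => []
  | .hat r _ => M.inp r
  | .one r _ => M.inp r
  | .mid r _ => M.inp r
  | .two r => M.inp r

/-- the words pushed by the new rules -/
def Epsh : EL M → List M.Γ
  | .idle => [M.Z0]
  | .turn => [M.Z0]
  | .hat r _ => M.psh r
  | .one r _ => M.psh r
  | .mid r _ => M.psh r
  | .two r => M.psh r

/-- the targets of the new rules -/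
def Etgt : EL M → ES M
  | .idle => .i0
  | .turn => .t
  | .hat r _ => .one (M.tgt r)
  | .one r _ => .one (M.tgt r)
  | .mid r _ => .two (M.tgt r)
  | .two r => .two (M.tgt r)

/-- the new relation -/
def ERel : EL M → EL M → Prop
  | .idle, .hat _ _ => True
  | .turn, .hat _ _ => True
  | .hat r _, .mid s _ => M.R r s
  | .mid r _, .two s => M.R r s
  | .two r, .two s => M.R r s
  | _, _ => False

theorem E_inj : ∀ r s : EL M, Etop r = Etop s → Esrc r = Esrc s → Einp r = Einp s →
    Epsh r = Epsh s → Etgt r = Etgt s → r = s := by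
  intro r s h1 h2 h3 h4 h5
  cases r with
  | idle => cases s <;> simp_all [Esrc, Etgt]
  | turn => cases s <;> simp_all [Esrc, Etgt]
  | hat r h =>
    cases s with
    | hat s h' =>
      have := M.rule_inj r s h1 (h.trans h'.symm) h3 h4 (by simpa [Etgt] using h5)
      subst this
      rfl
    | _ => simp_all [Esrc, Etgt]
  | one r h =>
    cases s with
    | one s h' =>
      have := M.rule_inj r s h1 (by simpa [Esrc] using h2) h3 h4 (by simpa [Etgt] using h5)
      subst this
      rfl
    | _ => simp_all [Esrc, Etgt]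
  | mid r h =>
    cases s with
    | mid s h' =>
      have := M.rule_inj r s h1 (h.trans h'.symm) h3 h4 (by simpa [Etgt] using h5)
      subst this
      rfl
    | _ => simp_all [Esrc, Etgt]
  | two r =>
    cases s with
    | two s =>
      have := M.rule_inj r s h1 (by simpa [Esrc] using h2) h3 h4 (by simpa [Etgt] using h5)
      subst this
      rfl
    | _ => simp_all [Esrc, Etgt]

/-- An idle phase is added before the first phase. -/
def Ext (M : SPDA S) (n : ℕ) : SPDA S where
  Q := ES M
  Γ := M.Γ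
  Ψ := EL M
  finQ := finES M
  finΓ := M.finΓ
  finΨ := finEL M
  top := Etop
  src := Esrc
  inp := Einp
  psh := Epsh
  tgt := Etgt
  rule_inj := E_inj
  q0 := .i0
  qt := .t
  Z0 := M.Z0
  F := {x | ∃ f ∈ M.F, (x = .two f ∧ 1 ≤ n) ∨ (x = .one f ∧ f = M.qt ∧ n = 0)}
  R := ERel

/-- the computations of the new automaton -/
def EC (M : SPDA S) (n : ℕ) (α : List M.Γ) (q : ES M) (v : List S) (μ : List (EL M))
    (β : List M.Γ) (p : ES M) (u : List S) : Prop := (Ext M n).Comp α q v μ β p u

/-- the relation between heads for the new automaton -/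
def HR (M : SPDA S) (b c : List (EL M)) : Prop :=
  ∃ r s, b.head? = some r ∧ c.head? = some s ∧ ERel r s

theorem Ext_lang {M : SPDA S} {n : ℕ} {w : List S} : w ∈ (Ext M n).lang (n + 1) ↔
    ∃ f' : ES M, (∃ f ∈ M.F, (f' = .two f ∧ 1 ≤ n) ∨ (f' = .one f ∧ f = M.qt ∧ n = 0)) ∧
      ∃ k : ℕ, 1 ≤ k ∧ ∃ (b : List (EL M)) (L : List (List (EL M))),
      L.length = n + 1 ∧ (∀ c ∈ b :: L, c.length = k) ∧
      EC M n [M.Z0] .i0 w (b :: L).flatten [] f' [] ∧
      (∃ (ν : List (EL M)) (r : EL M), b = ν ++ [r] ∧ Etgt r = .t ∧ ∀ s ∈ ν, Etgt s ≠ .t) ∧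
      List.IsChain (HR M) (b :: L) := Iff.rfl

section
variable {n : ℕ}

theorem EC.refl (α : List M.Γ) (q : ES M) (v : List S) : EC M n α q v [] α q v :=
  SPDA.Comp.nil (M := Ext M n) α q v

theorem EC.cons (r : EL M) (α : List M.Γ) (v : List S) {μ : List (EL M)}
    {β : List M.Γ} {p : ES M} {u : List S} (h : EC M n (α ++ Epsh r) (Etgt r) v μ β p u) :
    EC M n (α ++ [Etop r]) (Esrc r) (Einp r ++ v) (r :: μ) β p u :=
  SPDA.Comp.cons (M := Ext M n) r α v μ β p u h

theorem EC.append {α β β' : List M.Γ} {q p p' : ES M} {v u u' : List S} {μ μ' : List (EL M)}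
    (h : EC M n α q v μ β p u) (h' : EC M n β p u μ' β' p' u') :
    EC M n α q v (μ ++ μ') β' p' u' := Comp.append (M := Ext M n) h h'

theorem EC.cons_inv {α β : List M.Γ} {q p : ES M} {v u : List S} {r : EL M} {μ : List (EL M)}
    (h : EC M n α q v (r :: μ) β p u) : ∃ α' v', α = α' ++ [Etop r] ∧ q = Esrc r ∧
      v = Einp r ++ v' ∧ EC M n (α' ++ Epsh r) (Etgt r) v' μ β p u :=
  Comp.cons_inv (M := Ext M n) h

theorem EC.nil_inv {α β : List M.Γ} {q p : ES M} {v u : List S}
    (h : EC M n α q v [] β p u) : α = β ∧ q = p ∧ v = u := Comp.nil_inv (M := Ext M n) h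

theorem EC.split {μ : List (EL M)} {α β' : List M.Γ} {q p' : ES M} {v u' : List S}
    {μ' : List (EL M)} (h : EC M n α q v (μ ++ μ') β' p' u') :
      ∃ β p u, EC M n α q v μ β p u ∧ EC M n β p u μ' β' p' u' :=
  Comp.split (M := Ext M n) h

end

variable {n : ℕ}

theorem two_to {α β : List M.Γ} {q p : M.Q} {v u : List S} {μ : List M.Ψ}
    (h : M.Comp α q v μ β p u) :
    EC M n α (.two q) v (μ.map .two) β (.two p) u := by
  induction h with
  | nil => exact EC.refl _ _ _
  | cons r α v μ β p u _ ih => exact EC.cons (.two r) α v ih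

theorem two_of {μ : List (EL M)} : ∀ {α β : List M.Γ} {q : M.Q} {y : ES M} {v u : List S},
    EC M n α (.two q) v μ β y u →
      ∃ q' μ1, y = .two q' ∧ μ = List.map .two μ1 ∧ M.Comp α q v μ1 β q' u := by
  induction μ with
  | nil =>
    intro α β q y v u h
    obtain ⟨rfl, rfl, rfl⟩ := EC.nil_inv h
    exact ⟨q, [], rfl, rfl, SPDA.Comp.nil _ _ _⟩
  | cons r μ ih =>
    intro α β q y v u h
    obtain ⟨α', v', h1, h2, h3, h4⟩ := Comp.cons_inv h
    cases r with
    | two r =>
      obtain ⟨q', μ1, h5, h6, h7⟩ := ih h4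
      have hq : q = M.src r := by
        have : (ES.two q : ES M) = .two (M.src r) := h2
        simpa using this
      subst h1 hq h3
      exact ⟨q', r :: μ1, h5, by rw [h6]; rfl, SPDA.Comp.cons r α' v' _ _ _ _ h7⟩
    | idle => exact absurd (show (ES.two q : ES M) = .i0 from h2) (by simp)
    | turn => exact absurd (show (ES.two q : ES M) = .i0 from h2) (by simp)
    | hat r h => exact absurd (show (ES.two q : ES M) = .t from h2) (by simp)
    | one r h => exact absurd (show (ES.two q : ES M) = .one (M.src r) from h2) (by simp)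
    | mid r h => exact absurd (show (ES.two q : ES M) = .one (M.src r) from h2) (by simp)

/-- no rule leads to the turn state, except perhaps the last one -/
def NT (M : SPDA S) (μ : List M.Ψ) : Prop := ∀ ν r, μ = ν ++ [r] → ∀ s ∈ ν, M.tgt s ≠ M.qt

theorem NT_cons {r : M.Ψ} {μ : List M.Ψ} (h1 : μ ≠ [] → M.tgt r ≠ M.qt) (h2 : NT M μ) :
    NT M (r :: μ) := by
  intro ν x h s hs
  rcases ν with - | ⟨y, ν⟩
  · simp at hs
  · simp only [List.cons_append, List.cons.injEq] at h
    obtain ⟨rfl, rfl⟩ := h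
    rcases List.mem_cons.1 hs with rfl | hs
    · exact h1 (by simp)
    · exact h2 ν x rfl s hs

theorem NT_tail {r : M.Ψ} {μ : List M.Ψ} (h : NT M (r :: μ)) :
    (μ ≠ [] → M.tgt r ≠ M.qt) ∧ NT M μ := by
  constructor
  · intro hμ
    obtain ⟨ν, x, rfl⟩ : ∃ ν x, μ = ν ++ [x] :=
      ⟨μ.dropLast, μ.getLast hμ, (List.dropLast_append_getLast hμ).symm⟩
    exact h (r :: ν) x rfl r (by simp)
  · rintro ν x rfl s hs
    exact h (r :: ν) x rfl s (by simp [hs])

theorem one_of {μ : List (EL M)} : ∀ {α β : List M.Γ} {q q' : M.Q} {v u : List S},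
    EC M n α (.one q) v μ β (.one q') u →
      ∃ μ1 : List M.Ψ, M.Comp α q v μ1 β q' u ∧ μ1.length = μ.length ∧ NT M μ1 ∧
        (μ1 ≠ [] → q ≠ M.qt) := by
  induction μ with
  | nil =>
    intro α β q q' v u h
    obtain ⟨rfl, h2, rfl⟩ := EC.nil_inv h
    have : q = q' := ES.one.inj h2
    subst this
    refine ⟨[], SPDA.Comp.nil _ _ _, rfl, ?_, fun h => absurd rfl h⟩
    intro ν r h
    simp at h
  | cons r μ ih =>
    intro α β q q' v u h
    obtain ⟨α', v', h1, h2, h3, h4⟩ := Comp.cons_inv h
    cases r with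
    | one r hr =>
      obtain ⟨μ1, h5, h6, h7, h8⟩ := ih h4
      have hq : q = M.src r := by
        have : (ES.one q : ES M) = .one (M.src r) := h2
        simpa using this
      subst h1 hq h3
      exact ⟨r :: μ1, SPDA.Comp.cons r α' v' _ _ _ _ h5, congrArg (· + 1) h6, NT_cons h8 h7,
        fun _ => hr⟩
    | mid r hr =>
      obtain ⟨q'', μ1, h5, -⟩ := two_of h4
      simp at h5
    | idle => exact absurd (show (ES.one q : ES M) = .i0 from h2) (by simp)
    | turn => exact absurd (show (ES.one q : ES M) = .i0 from h2) (by simp)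
    | hat r h => exact absurd (show (ES.one q : ES M) = .t from h2) (by simp)
    | two r => exact absurd (show (ES.one q : ES M) = .two (M.src r) from h2) (by simp)

theorem one_to {α β : List M.Γ} {q p : M.Q} {v u : List S} {μ : List M.Ψ}
    (h : M.Comp α q v μ β p u) : NT M μ → (μ ≠ [] → q ≠ M.qt) →
    ∃ μ', μ'.length = μ.length ∧ EC M n α (.one q) v μ' β (.one p) u := by
  induction h with
  | nil =>
    intro _ _
    exact ⟨[], rfl, EC.refl _ _ _⟩
  | cons r α v μ β p u _ ih =>
    intro h1 h2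
    obtain ⟨h3, h4⟩ := NT_tail h1
    obtain ⟨μ', h5, h6⟩ := ih h4 h3
    exact ⟨.one r (h2 (by simp)) :: μ', congrArg (· + 1) h5,
      EC.cons (.one r (h2 (by simp))) α v h6⟩

theorem flatten_of {A B : Type} {f : A → B} {L' : List (List B)} : ∀ {μ : List A},
    L'.flatten = μ.map f → ∃ L : List (List A), L' = L.map (List.map f) ∧ μ = L.flatten := by
  induction L' with
  | nil =>
    intro μ h
    simp only [List.flatten_nil] at h
    have : μ = [] := by simpa using h.symm
    exact ⟨[], rfl, by simp [this]⟩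
  | cons b L' ih =>
    intro μ h
    rw [List.flatten_cons] at h
    obtain ⟨l1, l2, h1, h2, h3⟩ := List.map_eq_append_iff.1 h.symm
    obtain ⟨L, h4, h5⟩ := ih h3.symm
    exact ⟨l1 :: L, by rw [h4, ← h2]; rfl, by rw [h1, h5]; rfl⟩

theorem chain_two {L : List (List M.Ψ)} : ∀ {b' : List (EL M)} {b : List M.Ψ} {x' : EL M}
    {x : M.Ψ}, b'.head? = some x' → b.head? = some x →
      (∀ s, ERel x' (.two s) ↔ M.R x s) →
      (List.IsChain (HR M) (b' :: L.map (List.map .two)) ↔
        List.IsChain M.HeadRel (b :: L)) := by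
  induction L with
  | nil =>
    intro b' b x' x h1 h2 h3
    simp
  | cons c L ih =>
    intro b' b x' x h1 h2 h3
    rw [List.map_cons, List.isChain_cons_cons, List.isChain_cons_cons]
    rcases c with - | ⟨y, c⟩
    · constructor
      · rintro ⟨⟨r, s, -, h, -⟩, -⟩
        simp at h
      · rintro ⟨⟨r, s, -, h, -⟩, -⟩
        simp at h
    · refine and_congr ?_ (ih (x' := .two y) (x := y) rfl rfl (fun s => Iff.rfl))
      constructor
      · rintro ⟨r, s, e1, e2, e3⟩
        rw [h1] at e1
        obtain rfl := Option.some.inj e1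
        have e2' : EL.two y = s := Option.some.inj e2
        subst e2'
        exact ⟨x, y, h2, rfl, (h3 y).1 e3⟩
      · rintro ⟨r, s, e1, e2, e3⟩
        rw [h2] at e1
        obtain rfl := Option.some.inj e1
        have e2' : y = s := Option.some.inj e2
        subst e2'
        exact ⟨x', .two y, h1, rfl, (h3 y).2 e3⟩

theorem one_sing {A : Type} {x y : A} {l : List A} (h : [x] = l ++ [y]) : l = [] := by
  have := congrArg List.length h
  simp only [List.length_append, List.length_cons, List.length_nil] at this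
  exact List.eq_nil_of_length_eq_zero (by omega)

theorem idle_of {μ : List (EL M)} {β : List M.Γ} {y : ES M} {w u : List S} (ν : List (EL M)) :
    EC M n [M.Z0] .i0 w (ν ++ .turn :: μ) β y u → (∀ s ∈ ν, Etgt s ≠ .t) →
      EC M n [M.Z0] .t w μ β y u := by
  induction ν with
  | nil =>
    intro h _
    obtain ⟨α', v', h1, h2, h3, h4⟩ := EC.cons_inv h
    have e0 : α' = [] := one_sing h1
    have e2 : w = v' := h3
    subst e0 e2
    exact h4
  | cons s ν ih =>
    intro h hν
    obtain ⟨α', v', h1, h2, h3, h4⟩ := EC.cons_inv h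
    cases s with
    | idle =>
      have e0 : α' = [] := one_sing h1
      have e2 : w = v' := h3
      subst e0 e2
      exact ih h4 (fun s hs => hν s (List.mem_cons_of_mem _ hs))
    | turn => exact absurd rfl (hν EL.turn List.mem_cons_self)
    | hat r h => exact absurd (show (ES.i0 : ES M) = .t from h2) (by simp)
    | one r h => exact absurd (show (ES.i0 : ES M) = .one (M.src r) from h2) (by simp)
    | mid r h => exact absurd (show (ES.i0 : ES M) = .one (M.src r) from h2) (by simp)
    | two r => exact absurd (show (ES.i0 : ES M) = .two (M.src r) from h2) (by simp)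

theorem idle_to {μ : List (EL M)} {β : List M.Γ} {y : ES M} {w u : List S}
    (h : EC M n [M.Z0] .t w μ β y u) (m : ℕ) :
    EC M n [M.Z0] .i0 w (List.replicate m .idle ++ .turn :: μ) β y u := by
  induction m with
  | zero => exact EC.cons .turn [] w h
  | succ m ih => exact EC.cons .idle [] w ih

theorem turn_cond {α β : List M.Γ} {v u : List S} {r : M.Ψ} {μ : List M.Ψ}
    (h : M.Comp α (M.tgt r) v μ β M.qt u) (h1 : NT M μ) (h2 : μ ≠ [] → M.tgt r ≠ M.qt) :
    ∃ (ν : List M.Ψ) (x : M.Ψ), r :: μ = ν ++ [x] ∧ M.tgt x = M.qt ∧ ∀ s ∈ ν, M.tgt s ≠ M.qt := by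
  have h3 := NT_cons h2 h1
  obtain ⟨ν, x, hx⟩ : ∃ ν x, r :: μ = ν ++ [x] :=
    ⟨(r :: μ).dropLast, (r :: μ).getLast (by simp),
      (List.dropLast_append_getLast (by simp)).symm⟩
  refine ⟨ν, x, hx, ?_, h3 ν x hx⟩
  rcases ν with - | ⟨z, ν⟩
  · simp only [List.nil_append, List.cons.injEq] at hx
    obtain ⟨rfl, rfl⟩ := hx
    exact (Comp.nil_inv h).2.1
  · simp only [List.cons_append, List.cons.injEq] at hx
    obtain ⟨rfl, rfl⟩ := hx
    exact Comp.last h

theorem Ext_sub (M : SPDA S) (n : ℕ) : (Ext M n).lang (n + 1) ⊆ M.lang n := by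
  intro w hw
  obtain ⟨f', hf', k, hk, b0, L', hL, hlen, hcomp, ⟨ν, r, hb0, htgt, hν⟩, hchain⟩ :=
    Ext_lang.1 hw
  have hr : r = .turn := by
    cases r with
    | turn => rfl
    | idle => exact absurd (show (ES.i0 : ES M) = .t from htgt) (by simp)
    | hat r h => exact absurd (show (ES.one (M.tgt r) : ES M) = .t from htgt) (by simp)
    | one r h => exact absurd (show (ES.one (M.tgt r) : ES M) = .t from htgt) (by simp)
    | mid r h => exact absurd (show (ES.two (M.tgt r) : ES M) = .t from htgt) (by simp)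
    | two r => exact absurd (show (ES.two (M.tgt r) : ES M) = .t from htgt) (by simp)
  subst hr hb0
  have h1 : EC M n [M.Z0] .t w L'.flatten [] f' [] := by
    refine idle_of ν ?_ hν
    have : ((ν ++ [EL.turn]) :: L').flatten = ν ++ .turn :: L'.flatten := by simp
    rw [← this]
    exact hcomp
  obtain ⟨b1, L2, rfl⟩ : ∃ b1 L2, L' = b1 :: L2 := by
    rcases L' with - | ⟨b1, L2⟩
    · simp at hL
    · exact ⟨_, _, rfl⟩
  have hb1 : b1.length = k := hlen b1 (by simp)
  obtain ⟨r1, m1, rfl⟩ : ∃ r1 m1, b1 = r1 :: m1 := by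
    rcases b1 with - | ⟨r1, m1⟩
    · simp at hb1
      omega
    · exact ⟨_, _, rfl⟩
  rw [List.flatten_cons, List.cons_append] at h1
  obtain ⟨α', v', e1, e2, e3, h2⟩ := EC.cons_inv h1
  obtain ⟨r, hr, rfl⟩ : ∃ r hr, r1 = .hat r hr := by
    cases r1 with
    | hat r hr => exact ⟨r, hr, rfl⟩
    | turn => exact absurd (show (ES.t : ES M) = .i0 from e2) (by simp)
    | idle => exact absurd (show (ES.t : ES M) = .i0 from e2) (by simp)
    | one r h => exact absurd (show (ES.t : ES M) = .one (M.src r) from e2) (by simp)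
    | mid r h => exact absurd (show (ES.t : ES M) = .one (M.src r) from e2) (by simp)
    | two r => exact absurd (show (ES.t : ES M) = .two (M.src r) from e2) (by simp)
  have e1' : [M.Z0] = α' ++ [M.top r] := e1
  have e3' : w = M.inp r ++ v' := e3
  rcases Nat.eq_zero_or_pos n with hn | hn
  · subst hn
    have hL2 : L2 = [] := List.eq_nil_of_length_eq_zero (by simpa using hL)
    subst hL2
    obtain ⟨f, hf, hf2 | hf2⟩ := hf'
    · omega
    · obtain ⟨rfl, rfl, -⟩ := hf2
      rw [List.flatten_nil, List.append_nil] at h2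
      obtain ⟨μ1, c1, c2, c3, c4⟩ := one_of h2
      refine ⟨M.qt, hf, k, hk, r :: μ1, [], rfl, ?_, ?_, turn_cond c1 c3 c4, by simp⟩
      · intro c hc
        simp only [List.mem_cons, List.not_mem_nil, or_false] at hc
        subst hc
        simp only [List.length_cons] at hb1 ⊢
        omega
      · rw [e1', e3', ← hr]
        have : (([r :: μ1] : List (List M.Ψ))).flatten = r :: μ1 := by simp
        rw [this]
        exact SPDA.Comp.cons r α' v' _ _ _ _ c1
  · obtain ⟨b2, L3, rfl⟩ : ∃ b2 L3, L2 = b2 :: L3 := by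
      rcases L2 with - | ⟨b2, L3⟩
      · simp at hL
        omega
      · exact ⟨_, _, rfl⟩
    have hb2 : b2.length = k := hlen b2 (by simp)
    obtain ⟨r2, m2, rfl⟩ : ∃ r2 m2, b2 = r2 :: m2 := by
      rcases b2 with - | ⟨r2, m2⟩
      · simp at hb2
        omega
      · exact ⟨_, _, rfl⟩
    rw [List.isChain_cons_cons, List.isChain_cons_cons] at hchain
    obtain ⟨-, ⟨x, y, hx, hy, hxy⟩, hch⟩ := hchain
    have hx' : EL.hat r hr = x := Option.some.inj hx
    have hy' : r2 = y := Option.some.inj hy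
    subst hx' hy'
    obtain ⟨s, hs, rfl⟩ : ∃ s hs, r2 = .mid s hs := by
      cases r2 with
      | mid s hs => exact ⟨s, hs, rfl⟩
      | turn => exact absurd hxy (fun h => h)
      | idle => exact absurd hxy (fun h => h)
      | one r h => exact absurd hxy (fun h => h)
      | hat r h => exact absurd hxy (fun h => h)
      | two r => exact absurd hxy (fun h => h)
    have hxy' : M.R r s := hxy
    obtain ⟨β, y, u1, h3, h4⟩ := EC.split h2
    rw [List.flatten_cons, List.cons_append] at h4
    obtain ⟨α2, v2, g1, g2, g3, h5⟩ := EC.cons_inv h4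
    have g2' : y = .one M.qt := by
      rw [← hs]
      exact g2
    subst g2'
    obtain ⟨μ1, c1, c2, c3, c4⟩ := one_of h3
    obtain ⟨f1, μ2, d1, d2, d3⟩ := two_of h5
    obtain ⟨f, hf, hf2 | hf2⟩ := hf'
    swap
    · omega
    obtain ⟨rfl, -⟩ := hf2
    have hff : f = f1 := by simpa using d1
    subst hff
    obtain ⟨l1, l2, k1, k2, k3⟩ := List.map_eq_append_iff.1 d2.symm
    obtain ⟨L, k4, k5⟩ := flatten_of k3.symm
    refine ⟨f, hf, k, hk, r :: μ1, (s :: l1) :: L, ?_, ?_, ?_, turn_cond c1 c3 c4, ?_⟩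
    · have := congrArg List.length k4
      simp only [List.length_map, List.length_cons] at this hL ⊢
      omega
    · intro c hc
      simp only [List.mem_cons] at hc
      rcases hc with rfl | rfl | hc
      · simp only [List.length_cons] at hb1 ⊢
        omega
      · have := congrArg List.length k2
        simp only [List.length_map, List.length_cons] at this hb2 ⊢
        omega
      · have := hlen (c.map .two) (by
          rw [k4]
          exact List.mem_cons_of_mem _ (List.mem_cons_of_mem _ (List.mem_cons_of_mem _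
            (List.mem_map_of_mem hc))))
        simpa using this
    · have : ((r :: μ1) :: (s :: l1) :: L).flatten = (r :: μ1) ++ (s :: μ2) := by
        rw [List.flatten_cons, List.flatten_cons, k1, k5]
        simp
      rw [this, e1', e3', ← hr]
      refine Comp.append (SPDA.Comp.cons r α' v' _ _ _ _ c1) ?_
      have g1' : β = α2 ++ [M.top s] := g1
      have g3' : u1 = M.inp s ++ v2 := g3
      rw [g1', g3', ← hs]
      exact SPDA.Comp.cons s α2 v2 _ _ _ _ d3
    · rw [List.isChain_cons_cons]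
      refine ⟨⟨r, s, rfl, rfl, hxy'⟩, ?_⟩
      rw [k4] at hch
      exact (chain_two (b := s :: l1) (x' := .mid s hs) (x := s) rfl rfl
        (fun s => Iff.rfl)).1 hch

theorem Ext_sup (M : SPDA S) (n : ℕ) : M.lang n ⊆ (Ext M n).lang (n + 1) := by
  rintro w ⟨f, hf, k, hk, b, L, hL, hlen, hcomp, ⟨ν, r, hb, htgt, hν⟩, hchain⟩
  have hbk : b.length = k := hlen b (by simp)
  obtain ⟨r0, μ1, rfl⟩ : ∃ r0 μ1, b = r0 :: μ1 := by
    rcases b with - | ⟨r0, μ1⟩
    · simp at hbk
      omega
    · exact ⟨_, _, rfl⟩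
  have hNT : NT M (r0 :: μ1) := by
    intro ν' r' h s hs
    rw [hb] at h
    have := List.append_inj' h rfl
    rw [← this.1] at hs
    exact hν s hs
  obtain ⟨hNT1, hNT2⟩ := NT_tail hNT
  rw [List.flatten_cons] at hcomp
  obtain ⟨β, p, u, h1, h2⟩ := Comp.split hcomp
  have hp : p = M.qt := by
    rw [hb] at h1
    rw [← Comp.last h1, htgt]
  subst hp
  obtain ⟨α', v', e1, e2, e3, h3⟩ := Comp.cons_inv h1
  obtain ⟨μ1', c1, c2⟩ := one_to (n := n) h3 hNT2 hNT1
  have hrep : (List.replicate (k - 1) (EL.idle : EL M) ++ [EL.turn]).length = k := by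
    simp
    omega
  have hturn : ∃ (ν : List (EL M)) (r : EL M), List.replicate (k - 1) (EL.idle : EL M) ++
      [EL.turn] = ν ++ [r] ∧ Etgt r = .t ∧ ∀ s ∈ ν, Etgt s ≠ .t := by
    refine ⟨_, _, rfl, rfl, ?_⟩
    intro s hs
    rw [List.eq_of_mem_replicate hs]
    exact fun h => absurd (show (ES.i0 : ES M) = .t from h) (by simp)
  have hhead : HR M (List.replicate (k - 1) (EL.idle : EL M) ++ [EL.turn])
      (.hat r0 e2.symm :: μ1') := by
    rcases Nat.eq_zero_or_pos (k - 1) with h | h
    · rw [h]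
      exact ⟨.turn, _, rfl, rfl, trivial⟩
    · obtain ⟨j, hj⟩ : ∃ j, k - 1 = j + 1 := ⟨k - 2, by omega⟩
      rw [hj, List.replicate_succ]
      exact ⟨.idle, _, rfl, rfl, trivial⟩
  have hone : EC M n [M.Z0] .t w (.hat r0 e2.symm :: μ1') β (.one M.qt) u := by
    rw [e1, e3]
    exact EC.cons (.hat r0 e2.symm) α' v' c2
  rcases L with - | ⟨b2, L3⟩
  · have hn : n = 0 := by simpa using hL.symm
    subst hn
    obtain ⟨rfl, rfl, rfl⟩ := Comp.nil_inv h2
    refine Ext_lang.2 ⟨.one M.qt, ⟨M.qt, hf, Or.inr ⟨rfl, rfl, rfl⟩⟩, k, hk, _, [.hat r0 e2.symm :: μ1'],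
      rfl, ?_, ?_, hturn, ?_⟩
    · intro c hc
      simp only [List.mem_cons, List.not_mem_nil, or_false] at hc
      rcases hc with rfl | rfl
      · exact hrep
      · simp only [List.length_cons] at hbk ⊢
        omega
    · have : ((List.replicate (k - 1) (EL.idle : EL M) ++ [EL.turn]) ::
          [.hat r0 e2.symm :: μ1']).flatten =
          List.replicate (k - 1) (EL.idle : EL M) ++ .turn :: (.hat r0 e2.symm :: μ1') := by simp
      rw [this]
      exact idle_to hone _
    · rw [List.isChain_cons_cons]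
      exact ⟨hhead, by simp⟩
  · have hb2 : b2.length = k := hlen b2 (by simp)
    obtain ⟨s, m2, rfl⟩ : ∃ s m2, b2 = s :: m2 := by
      rcases b2 with - | ⟨s, m2⟩
      · simp at hb2
        omega
      · exact ⟨_, _, rfl⟩
    rw [List.isChain_cons_cons] at hchain
    obtain ⟨⟨x, y, hx, hy, hxy⟩, hch⟩ := hchain
    have hx' : r0 = x := Option.some.inj hx
    have hy' : s = y := Option.some.inj hy
    subst hx' hy'
    rw [List.flatten_cons, List.cons_append] at h2
    obtain ⟨α2, v2, g1, g2, g3, h5⟩ := Comp.cons_inv h2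
    have h6 := two_to (n := n) h5
    refine Ext_lang.2 ⟨.two f, ⟨f, hf, Or.inl ⟨rfl, ?_⟩⟩, k, hk, _,
      (.hat r0 e2.symm :: μ1') :: (.mid s g2.symm :: m2.map .two) :: L3.map (List.map .two),
      ?_, ?_, ?_, hturn, ?_⟩
    · simp only [List.length_cons] at hL
      omega
    · simp only [List.length_cons, List.length_map] at hL ⊢
      omega
    · intro c hc
      simp only [List.mem_cons, List.mem_map] at hc
      rcases hc with rfl | rfl | rfl | ⟨d, hd, rfl⟩
      · exact hrep
      · simp only [List.length_cons] at hbk ⊢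
        omega
      · simp only [List.length_cons, List.length_map] at hb2 ⊢
        omega
      · rw [List.length_map]
        exact hlen d (by simp [hd])
    · have : ((List.replicate (k - 1) (EL.idle : EL M) ++ [EL.turn]) ::
          (.hat r0 e2.symm :: μ1') :: (.mid s g2.symm :: m2.map .two) ::
            L3.map (List.map .two)).flatten =
          List.replicate (k - 1) (EL.idle : EL M) ++ .turn :: ((.hat r0 e2.symm :: μ1') ++
            (.mid s g2.symm :: (m2 ++ L3.flatten).map .two)) := by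
        simp [List.map_flatten]
      rw [this]
      refine idle_to (EC.append hone ?_) _
      rw [g1, g3]
      have g2' : (ES.one M.qt : ES M) = .one (M.src s) := by rw [← g2]
      rw [g2']
      exact EC.cons (.mid s g2.symm) α2 v2 h6
    · rw [List.isChain_cons_cons, List.isChain_cons_cons]
      refine ⟨hhead, ⟨_, _, rfl, rfl, hxy⟩, ?_⟩
      exact (chain_two (b := s :: m2) (x' := .mid s g2.symm) (x := s) rfl rfl
        (fun s => Iff.rfl)).2 hch

theorem incl (n : ℕ) (S : Type) : FSPDA n S ⊆ FSPDA (n + 1) S := by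
  rintro L ⟨M, rfl⟩
  exact ⟨Ext M n, Set.Subset.antisymm (Ext_sup M n) (Ext_sub M n)⟩

end Pool.Agent.V11233.SR
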