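import Mathlib

/-!
An integral form of the theorem of Carathéodory.
-/

set_option autoImplicit false

namespace Pool.Agent.V11233.SR

theorem exists_rel {T : Type} [Fintype T] {n : ℕ} (v : T → Fin n → ℤ) (h : n < Fintype.card T) :
    ∃ g : T → ℤ, (∀ j, ∑ t, g t * v t j = 0) ∧ ∃ t, g t ≠ 0 := by
  have h1 : ¬ LinearIndependent ℤ v := by
    intro hl
    have := hl.fintype_card_le_finrank
    rw [Module.finrank_fintype_fun_eq_card, Fintype.card_fin] at this
    omega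
  obtain ⟨g, h2, h3⟩ := Fintype.not_linearIndependent_iff.1 h1
  refine ⟨g, fun j => ?_, h3⟩
  have := congrFun h2 j
  simpa [Finset.sum_apply] using this

theorem carath {I : Type} [Fintype I] {n : ℕ} (a : I → Fin n → ℤ) (x0 : I) (m : ℕ) :
    ∀ δ : I → ℕ, {x | δ x ≠ 0}.ncard = m → (∀ j, ∑ x, (δ x : ℤ) * a x j = 0) → δ x0 ≠ 0 →
      ∃ ρ : I → ℕ, (∀ x, ρ x ≠ 0 → δ x ≠ 0) ∧ (∀ j, ∑ x, (ρ x : ℤ) * a x j = 0) ∧ ρ x0 ≠ 0 ∧
        {x | ρ x ≠ 0}.ncard ≤ n + 1 := by
  classical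
  induction m using Nat.strong_induction_on with
  | _ m ih =>
    intro δ hm hδ hx0
    by_cases hle : m ≤ n + 1
    · exact ⟨δ, fun x h => h, hδ, hx0, by omega⟩
    obtain ⟨τ, ht1, ht2, ht3, ht4⟩ : ∃ τ : I → ℤ, (∀ j, ∑ x, τ x * a x j = 0) ∧ τ x0 = 0 ∧
        (∀ x, τ x ≠ 0 → δ x ≠ 0) ∧ ∃ x, τ x ≠ 0 := by
      have hcard : n < Fintype.card {x // δ x ≠ 0 ∧ x ≠ x0} := by
        have h1 : {x | δ x ≠ 0} = insert x0 {x | δ x ≠ 0 ∧ x ≠ x0} := by
          ext x
          simp only [Set.mem_ofPred_eq, Set.mem_insert_iff]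
          by_cases hx : x = x0
          · subst hx
            simp [hx0]
          · simp [hx]
        have h2 : {x | δ x ≠ 0}.ncard ≤ {x | δ x ≠ 0 ∧ x ≠ x0}.ncard + 1 := by
          rw [h1]
          exact Set.ncard_insert_le _ _
        have h3 : {x | δ x ≠ 0 ∧ x ≠ x0}.ncard = Fintype.card {x // δ x ≠ 0 ∧ x ≠ x0} := by
          rw [← Nat.card_eq_fintype_card]
          rfl
        omega
      obtain ⟨g, hg1, ⟨t, ht⟩⟩ := exists_rel (fun t : {x // δ x ≠ 0 ∧ x ≠ x0} => a t.1) hcard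
      obtain ⟨τ, hτ1, hτ2⟩ : ∃ τ : I → ℤ, (∀ t : {x // δ x ≠ 0 ∧ x ≠ x0}, τ t.1 = g t) ∧
          ∀ x, ¬ (δ x ≠ 0 ∧ x ≠ x0) → τ x = 0 :=
        ⟨fun x => if h : δ x ≠ 0 ∧ x ≠ x0 then g ⟨x, h⟩ else 0, fun t => dif_pos t.2,
          fun x h => dif_neg h⟩
      refine ⟨τ, ?_, hτ2 x0 (fun h => h.2 rfl), ?_, ⟨t.1, by rw [hτ1]; exact ht⟩⟩
      · intro j
        refine Eq.trans ?_ (hg1 j)
        symm
        apply Finset.sum_of_injOn (fun t : {x // δ x ≠ 0 ∧ x ≠ x0} => t.1)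
        · exact fun x _ y _ h => Subtype.ext h
        · intro x _
          simp
        · intro x _ hx
          have : ¬ (δ x ≠ 0 ∧ x ≠ x0) := by
            intro h
            exact hx ⟨⟨x, h⟩, by simp, rfl⟩
          rw [hτ2 x this, zero_mul]
        · intro x _
          rw [hτ1]
      · intro x hx h0
        exact hx (hτ2 x (fun h => h.1 h0))
    obtain ⟨σ, hs1, hs2, hs3, x1, hs4⟩ : ∃ τ : I → ℤ, (∀ j, ∑ x, τ x * a x j = 0) ∧ τ x0 = 0 ∧
        (∀ x, τ x ≠ 0 → δ x ≠ 0) ∧ ∃ x, 0 < τ x := by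
      obtain ⟨x1, hx1⟩ := ht4
      rcases lt_or_gt_of_ne hx1 with h | h
      · refine ⟨fun x => - τ x, ?_, by simp [ht2], fun x hx => ht3 x (by simpa using hx),
          x1, neg_pos.2 h⟩
        intro j
        have := ht1 j
        simp only [neg_mul, Finset.sum_neg_distrib, this, neg_zero]
      · exact ⟨τ, ht1, ht2, ht3, x1, h⟩
    obtain ⟨y, hy1, hy2⟩ := Finset.exists_min_image (Finset.univ.filter (fun x => 0 < σ x))
      (fun x => (δ x : ℚ) / (σ x : ℚ)) ⟨x1, by simp [hs4]⟩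
    have hy : 0 < σ y := by simpa using hy1
    have hmin : ∀ x, 0 < σ x → (δ y : ℤ) * σ x ≤ σ y * δ x := by
      intro x hx
      have h1 := hy2 x (by simp [hx])
      rw [div_le_div_iff₀ (by exact_mod_cast hy) (by exact_mod_cast hx)] at h1
      have h2 : ((δ y : ℤ) * σ x : ℤ) ≤ (δ x : ℤ) * σ y := by exact_mod_cast h1
      linarith
    have hnn : ∀ x, 0 ≤ σ y * δ x - δ y * σ x := by
      intro x
      rcases lt_or_ge 0 (σ x) with h | h
      · have := hmin x h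
        linarith
      · have h1 : 0 ≤ σ y * δ x := by positivity
        have h2 : (δ y : ℤ) * σ x ≤ 0 := mul_nonpos_of_nonneg_of_nonpos (by positivity) h
        linarith
    obtain ⟨ρ, hρ⟩ : ∃ ρ : I → ℕ, ∀ x, (ρ x : ℤ) = σ y * δ x - δ y * σ x :=
      ⟨fun x => (σ y * δ x - δ y * σ x).toNat, fun x => Int.toNat_of_nonneg (hnn x)⟩
    have hsup : ∀ x, ρ x ≠ 0 → δ x ≠ 0 := by
      intro x hx h0
      apply hx
      have h1 : σ x = 0 := by
        by_contra h
        exact hs3 x h h0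
      have h2 := hρ x
      rw [h0, h1] at h2
      simpa using h2
    have hρy : ρ y = 0 := by
      have h2 := hρ y
      have h3 : σ y * δ y - δ y * σ y = 0 := by ring
      rw [h3] at h2
      exact_mod_cast h2
    have hlt : {x | ρ x ≠ 0}.ncard < m := by
      rw [← hm]
      apply Set.ncard_lt_ncard _ (Set.toFinite _)
      constructor
      · exact hsup
      · intro h
        have h1 : y ∈ {x | δ x ≠ 0} := hs3 y (ne_of_gt hy)
        exact h h1 hρy
    have hA : ∀ j, ∑ x, (ρ x : ℤ) * a x j = 0 := by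
      intro j
      have e : ∀ x, (ρ x : ℤ) * a x j = σ y * ((δ x : ℤ) * a x j) - δ y * (σ x * a x j) := by
        intro x
        rw [hρ x]
        ring
      rw [Finset.sum_congr rfl (fun x _ => e x), Finset.sum_sub_distrib, ← Finset.mul_sum,
        ← Finset.mul_sum, hδ j, hs1 j, mul_zero, mul_zero, sub_zero]
    have hB : ρ x0 ≠ 0 := by
      intro h
      have h2 := hρ x0
      rw [h, hs2] at h2
      have h3 : (0 : ℤ) < σ y * δ x0 := by
        have : 0 < δ x0 := Nat.pos_of_ne_zero hx0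
        positivity
      rw [mul_zero, sub_zero] at h2
      rw [← h2] at h3
      simp at h3
    obtain ⟨ρ', h1, h2, h3, h4⟩ := ih _ hlt ρ rfl hA hB
    exact ⟨ρ', fun x hx => hsup x (h1 x hx), h2, h3, h4⟩

end Pool.Agent.V11233.SR
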