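import Pool.Agent.V11233.SR.Gram
import Pool.Agent.V11233.SR.Lin

/-!
The abstract pumping theorem.
-/

set_option autoImplicit false

namespace Pool.Agent.V11233.SR

section
variable {N : Type} {n r : ℕ} {lf : N → Prop}
  {P : N → ((Fin (n + 1) ⊕ Fin r) → ℕ) → N → N → Prop} {lo hi : N → Fin r}

theorem Der.range (hlf : ∀ A, lf A → lo A = hi A)
    (hP : ∀ A w B C, P A w B C → lo A ≤ lo B ∧ hi B = lo C ∧ hi C = hi A ∧
      ∀ a, w (Sum.inr a) ≠ 0 → lo A ≤ a ∧ a ≤ lo B)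
    {A : N} {U : Set N} {v : (Fin (n + 1) ⊕ Fin r) → ℕ} (h : Der lf P A U v) :
    lo A ≤ hi A ∧ ∀ a, v (Sum.inr a) ≠ 0 → lo A ≤ a ∧ a ≤ hi A := by
  induction h with
  | leaf A h => exact ⟨(hlf A h).le, fun a ha => absurd rfl ha⟩
  | node A B C w u v U V h1 _ _ ih1 ih2 =>
    obtain ⟨h2, h3, h4, h5⟩ := hP _ _ _ _ h1
    obtain ⟨h6, h7⟩ := ih1
    obtain ⟨h8, h9⟩ := ih2
    rw [← h3, h4] at h8 h9
    refine ⟨h2.trans (h6.trans h8), ?_⟩
    intro a ha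
    have h10 : w (Sum.inr a) ≠ 0 ∨ u (Sum.inr a) ≠ 0 ∨ v (Sum.inr a) ≠ 0 := by
      by_contra hcon
      push Not at hcon
      apply ha
      simp [hcon.1, hcon.2.1, hcon.2.2]
    rcases h10 with h | h | h
    · exact ⟨(h5 a h).1, (h5 a h).2.trans (h6.trans h8)⟩
    · exact ⟨h2.trans (h7 a h).1, (h7 a h).2.trans h8⟩
    · exact ⟨h2.trans (h6.trans (h9 a h).1), (h9 a h).2⟩

theorem Ctx.range (hlf : ∀ A, lf A → lo A = hi A)
    (hP : ∀ A w B C, P A w B C → lo A ≤ lo B ∧ hi B = lo C ∧ hi C = hi A ∧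
      ∀ a, w (Sum.inr a) ≠ 0 → lo A ≤ a ∧ a ≤ lo B)
    {A D : N} {c : (Fin (n + 1) ⊕ Fin r) → ℕ} (h : Ctx lf P A D c) : lo A ≤ lo D ∧
    hi D ≤ hi A ∧ ∀ a, c (Sum.inr a) ≠ 0 → (lo A ≤ a ∧ a ≤ lo D) ∨ (hi D ≤ a ∧ a ≤ hi A) := by
  induction h with
  | hole A => exact ⟨le_rfl, le_rfl, fun a ha => absurd rfl ha⟩
  | left A B C D w c v V h1 _ h3 ih =>
    obtain ⟨h2, h4, h5, h6⟩ := hP _ _ _ _ h1
    obtain ⟨h7, h8, h9⟩ := ih
    obtain ⟨h10, h11⟩ := Der.range hlf hP h3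
    rw [← h4, h5] at h10 h11
    refine ⟨h2.trans h7, h8.trans h10, ?_⟩
    intro a ha
    have h12 : w (Sum.inr a) ≠ 0 ∨ c (Sum.inr a) ≠ 0 ∨ v (Sum.inr a) ≠ 0 := by
      by_contra hcon
      push Not at hcon
      apply ha
      simp [hcon.1, hcon.2.1, hcon.2.2]
    rcases h12 with h | h | h
    · exact Or.inl ⟨(h6 a h).1, (h6 a h).2.trans h7⟩
    · rcases h9 a h with h' | h'
      · exact Or.inl ⟨h2.trans h'.1, h'.2⟩
      · exact Or.inr ⟨h'.1, h'.2.trans h10⟩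
    · exact Or.inr ⟨h8.trans (h11 a h).1, (h11 a h).2⟩
  | right A B C D w u c U h1 h2 _ ih =>
    obtain ⟨h3, h4, h5, h6⟩ := hP _ _ _ _ h1
    obtain ⟨h7, h8, h9⟩ := ih
    obtain ⟨h10, h11⟩ := Der.range hlf hP h2
    rw [← h4] at h7 h9
    rw [h5] at h8 h9
    refine ⟨h3.trans (h10.trans h7), h8, ?_⟩
    intro a ha
    have h12 : w (Sum.inr a) ≠ 0 ∨ u (Sum.inr a) ≠ 0 ∨ c (Sum.inr a) ≠ 0 := by
      by_contra hcon
      push Not at hcon
      apply ha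
      simp [hcon.1, hcon.2.1, hcon.2.2]
    rcases h12 with h | h | h
    · exact Or.inl ⟨(h6 a h).1, (h6 a h).2.trans (h10.trans h7)⟩
    · exact Or.inl ⟨h3.trans (h11 a h).1, (h11 a h).2.trans h7⟩
    · rcases h9 a h with h' | h'
      · exact Or.inl ⟨(h3.trans h10).trans h'.1, h'.2⟩
      · exact Or.inr h'

theorem abs_pump [Finite N] (hlf : ∀ A, lf A → lo A = hi A)
    (hP : ∀ A w B C, P A w B C → lo A ≤ lo B ∧ hi B = lo C ∧ hi C = hi A ∧
      ∀ a, w (Sum.inr a) ≠ 0 → lo A ≤ a ∧ a ≤ lo B)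
    (hfin : {x : N × ((Fin (n + 1) ⊕ Fin r) → ℕ) × N × N |
      P x.1 x.2.1 x.2.2.1 x.2.2.2}.Finite)
    (hr : 2 * (n + 1) < r) (G : N → Prop) (cst : N → (Fin (n + 1) ⊕ Fin r) → ℕ)
    (h : ∀ i : ℕ, ∃ A U v, G A ∧ Der lf P A U v ∧
      (∀ j, (cst A + v) (Sum.inl j) = (cst A + v) (Sum.inl 0)) ∧
      ∀ a, (cst A + v) (Sum.inr a) = i + 1) :
    ∃ A U v, G A ∧ Der lf P A U v ∧
      (∀ j, (cst A + v) (Sum.inl j) = (cst A + v) (Sum.inl 0)) ∧
      ∃ a b, (cst A + v) (Sum.inr a) ≠ (cst A + v) (Sum.inr b) := by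
  classical
  have := Fintype.ofFinite N
  obtain ⟨K, hK1, hK2⟩ := exists_bound (lf := lf) hfin
  choose A U v hG hD hph hlet using h
  have hdec := fun i => decomp hK2 (hD i)
  choose s hs l hl hl2 using hdec
  obtain ⟨f, hf1, hf2, hf3, hf4⟩ : ∃ f : ℕ → (Pm N (Fin (n + 1) ⊕ Fin r) K ⊕
      ((Fin (n + 1) ⊕ Fin r) ⊕ ((Fin (n + 1) ⊕ Fin r) ⊕ N))) → ℕ,
      (∀ i x, f i (Sum.inl x) = l i x) ∧ (∀ i x, f i (Sum.inr (Sum.inl x)) = s i x) ∧
      (∀ i x, f i (Sum.inr (Sum.inr (Sum.inl x))) = K - s i x) ∧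
      (∀ i x, f i (Sum.inr (Sum.inr (Sum.inr x))) = if x = A i then 1 else 0) :=
    ⟨fun i => Sum.elim (l i) (Sum.elim (s i) (Sum.elim (fun x => K - s i x)
      (fun x => if x = A i then 1 else 0))), fun _ _ => rfl, fun _ _ => rfl, fun _ _ => rfl,
      fun _ _ => rfl⟩
  obtain ⟨i, i', hii, hle⟩ := wellQuasiOrdered_le f
  have hA : A i = A i' := by
    have h1 : f i _ ≤ f i' _ := hle (Sum.inr (Sum.inr (Sum.inr (A i))))
    rw [hf4, hf4, if_pos rfl] at h1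
    by_contra h2
    rw [if_neg h2] at h1
    omega
  have hss : s i = s i' := by
    funext x
    have h1 : f i _ ≤ f i' _ := hle (Sum.inr (Sum.inl x))
    have h2 : f i _ ≤ f i' _ := hle (Sum.inr (Sum.inr (Sum.inl x)))
    rw [hf2, hf2] at h1
    rw [hf3, hf3] at h2
    have h3 := hK1 _ _ (hs i) x
    have h4 := hK1 _ _ (hs i') x
    omega
  have hll : ∀ x, l i x ≤ l i' x := by
    intro x
    have h1 : f i _ ≤ f i' _ := hle (Sum.inl x)
    rwa [hf1, hf1] at h1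
  obtain ⟨δ, hδ⟩ : ∃ δ : Pm N (Fin (n + 1) ⊕ Fin r) K → ℕ, ∀ x, l i' x = l i x + δ x :=
    ⟨fun x => l i' x - l i x, fun x => (Nat.add_sub_cancel' (hll x)).symm⟩
  have hval : ∀ t, v i' t = v i t + ∑ x, δ x * wt x t := by
    intro t
    have h1 := congrFun (hl i) t
    have h2 := congrFun (hl i') t
    simp only [Pi.add_apply, Finset.sum_apply, Pi.smul_apply, smul_eq_mul] at h1 h2
    rw [h1, h2, hss, add_assoc, ← Finset.sum_add_distrib]
    congr 1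
    refine Finset.sum_congr rfl (fun x _ => ?_)
    rw [hδ, add_mul]
  have hphase : ∀ j, ∑ x, δ x * wt x (Sum.inl j) = ∑ x, δ x * wt x (Sum.inl 0) := by
    intro j
    have h1 := hph i j
    have h2 := hph i' j
    rw [Pi.add_apply, Pi.add_apply] at h1 h2
    rw [hval (Sum.inl j), hval (Sum.inl 0), ← hA] at h2
    omega
  have hletter : ∀ a, 0 < ∑ x, δ x * wt x (Sum.inr a) := by
    intro a
    have h1 := hlet i a
    have h2 := hlet i' a
    rw [Pi.add_apply] at h1 h2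
    rw [hval (Sum.inr a), ← hA] at h2
    omega
  obtain ⟨a0, ha0⟩ : ∃ a0 : Fin r, a0 = ⟨0, by omega⟩ := ⟨_, rfl⟩
  obtain ⟨x0, -, hx0⟩ := Finset.exists_ne_zero_of_sum_ne_zero (ne_of_gt (hletter a0))
  have hx1 : δ x0 ≠ 0 := left_ne_zero_of_mul hx0
  have hx2 : wt x0 (Sum.inr a0) ≠ 0 := right_ne_zero_of_mul hx0
  obtain ⟨ρ, hρ1, hρ2, hρ3, hρ4⟩ := carath
    (fun (x : Pm N (Fin (n + 1) ⊕ Fin r) K) (j : Fin n) =>
      (wt x (Sum.inl j.succ) : ℤ) - wt x (Sum.inl 0)) x0 _ δ rfl (by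
      intro j
      have h1 := hphase j.succ
      have h2 : ((∑ x, δ x * wt x (Sum.inl j.succ) : ℕ) : ℤ) =
        ((∑ x, δ x * wt x (Sum.inl 0) : ℕ) : ℤ) := by rw [h1]
      push_cast at h2
      simp only [mul_sub, Finset.sum_sub_distrib, h2, sub_self]) hx1
  have hpump : ∀ x, ρ x ≠ 0 → x.1 ∈ U i' ∧ Ctx lf P x.1 x.1 (wt x) := by
    intro x hx
    refine hl2 i' x ?_
    have h1 := hρ1 x hx
    have h2 := hδ x
    omega
  obtain ⟨U', -, hD'⟩ := Der.pump_sum (hD i') ρ hpump Finset.univ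
  have hval' : ∀ t, (cst (A i') + (v i' + ∑ x, ρ x • wt x)) t =
      cst (A i') t + (v i' t + ∑ x, ρ x * wt x t) := by
    intro t
    simp only [Pi.add_apply, Finset.sum_apply, Pi.smul_apply, smul_eq_mul]
  refine ⟨A i', U', _, hG i', hD', ?_, ?_⟩
  · intro j
    rw [hval', hval']
    have h1 := hph i' j
    rw [Pi.add_apply, Pi.add_apply] at h1
    have h2 : ∑ x, ρ x * wt x (Sum.inl j) = ∑ x, ρ x * wt x (Sum.inl 0) := by
      rcases Fin.eq_zero_or_eq_succ j with rfl | ⟨j', rfl⟩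
      · rfl
      · have h3 := hρ2 j'
        simp only [mul_sub, Finset.sum_sub_distrib] at h3
        have h4 := sub_eq_zero.1 h3
        exact_mod_cast h4
    omega
  · obtain ⟨b, hb⟩ : ∃ b : Fin r, b ∉ (fun x : Pm N (Fin (n + 1) ⊕ Fin r) K => lo x.1) ''
        {x | ρ x ≠ 0} ∪ (fun x => hi x.1) '' {x | ρ x ≠ 0} := by
      by_contra hcon
      push Not at hcon
      have h1 : (Set.univ : Set (Fin r)) ⊆
        (fun x : Pm N (Fin (n + 1) ⊕ Fin r) K => lo x.1) ''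
        {x | ρ x ≠ 0} ∪ (fun x => hi x.1) '' {x | ρ x ≠ 0} := fun b _ => hcon b
      have h2 := Set.ncard_le_ncard h1 (Set.toFinite _)
      rw [Set.ncard_univ, Nat.card_eq_fintype_card, Fintype.card_fin] at h2
      have h3 := Set.ncard_union_le ((fun x : Pm N (Fin (n + 1) ⊕ Fin r) K => lo x.1) ''
        {x | ρ x ≠ 0}) ((fun x => hi x.1) '' {x | ρ x ≠ 0})
      have h4 := Set.ncard_image_le (f := fun x : Pm N (Fin (n + 1) ⊕ Fin r) K => lo x.1)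
        (Set.toFinite {x | ρ x ≠ 0})
      have h5 := Set.ncard_image_le (f := fun x : Pm N (Fin (n + 1) ⊕ Fin r) K => hi x.1)
        (Set.toFinite {x | ρ x ≠ 0})
      omega
    refine ⟨b, a0, ?_⟩
    rw [hval', hval']
    have h1 := hlet i' b
    have h2 := hlet i' a0
    rw [Pi.add_apply] at h1 h2
    have h3 : ∑ x, ρ x * wt x (Sum.inr b) = 0 := by
      refine Finset.sum_eq_zero (fun x _ => ?_)
      by_contra hne
      have h4 : ρ x ≠ 0 := left_ne_zero_of_mul hne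
      have h5 : wt x (Sum.inr b) ≠ 0 := right_ne_zero_of_mul hne
      obtain ⟨-, -, h6⟩ := Ctx.range hlf hP (hpump x h4).2
      apply hb
      rcases h6 b h5 with h7 | h7
      · exact Or.inl ⟨x, h4, le_antisymm h7.1 h7.2⟩
      · exact Or.inr ⟨x, h4, le_antisymm h7.1 h7.2⟩
    have h4 : 0 < ∑ x, ρ x * wt x (Sum.inr a0) := by
      have h5 : ρ x0 * wt x0 (Sum.inr a0) ≤ ∑ x, ρ x * wt x (Sum.inr a0) :=
        Finset.single_le_sum (f := fun x => ρ x * wt x (Sum.inr a0))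
          (fun x _ => Nat.zero_le _) (Finset.mem_univ x0)
      have h6 : 0 < ρ x0 * wt x0 (Sum.inr a0) :=
        Nat.mul_pos (Nat.pos_of_ne_zero hρ3) (Nat.pos_of_ne_zero hx2)
      omega
    omega

end

end Pool.Agent.V11233.SR
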