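import Pool.Agent.V11233.SR.Inc
import Pool.Agent.V11233.SR.Abs

/-!
The grammar of the annotated computations of a self-regulating pushdown automaton.
-/

set_option autoImplicit false

namespace Pool.Agent.V11233.SR

/-- all states before the end are different from the turn state, the last one is the turn state -/
def TQ {S : Type} (M : SPDA S) : M.Q → List M.Ψ → Prop
  | q, [] => q = M.qt
  | q, s :: c => q ≠ M.qt ∧ TQ M (M.tgt s) c

theorem TQ_iff {S : Type} {M : SPDA S} (c : List M.Ψ) : ∀ s : M.Ψ, TQ M (M.tgt s) c ↔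
    ∃ ν r, s :: c = ν ++ [r] ∧ M.tgt r = M.qt ∧ ∀ t ∈ ν, M.tgt t ≠ M.qt := by
  induction c with
  | nil =>
    intro s
    constructor
    · intro h
      exact ⟨[], s, rfl, h, by simp⟩
    · rintro ⟨ν, r, h1, h2, h3⟩
      rcases ν with - | ⟨t, ν⟩
      · simp only [List.nil_append, List.cons.injEq, and_true] at h1
        subst h1
        exact h2
      · simp at h1
  | cons t c ih =>
    intro s
    constructor
    · rintro ⟨h1, h2⟩
      obtain ⟨ν, r, h3, h4, h5⟩ := (ih t).1 h2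
      refine ⟨s :: ν, r, by rw [h3]; rfl, h4, ?_⟩
      intro t ht
      rcases List.mem_cons.1 ht with rfl | ht
      · exact h1
      · exact h5 t ht
    · rintro ⟨ν, r, h1, h2, h3⟩
      rcases ν with - | ⟨t', ν⟩
      · simp at h1
      · simp only [List.cons_append, List.cons.injEq] at h1
        obtain ⟨rfl, h1⟩ := h1
        exact ⟨h3 s (by simp), (ih t).2 ⟨ν, r, h1, h2, fun t ht => h3 t (by simp [ht])⟩⟩

theorem chain_head {S : Type} {M : SPDA S} {b b' : List M.Ψ} {L : List (List M.Ψ)}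
    (h : b.head? = b'.head?) (h1 : List.IsChain M.HeadRel (b :: L)) :
    List.IsChain M.HeadRel (b' :: L) := by
  rcases L with - | ⟨c, L⟩
  · simp
  · rw [List.isChain_cons_cons] at h1 ⊢
    refine ⟨?_, h1.2⟩
    obtain ⟨r, s, h2, h3, h4⟩ := h1.1
    exact ⟨r, s, by rw [← h]; exact h2, h3, h4⟩

variable {r : ℕ}

/-- annotated states: the phase, the first label of the phase, the state, the last letter -/
abbrev AS (M : SPDA (Fin r)) (n : ℕ) : Type := (Fin (n + 1) × M.Ψ) × M.Q × Fin r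

/-- the phases before and after a move -/
def PhStep (M : SPDA (Fin r)) (n : ℕ) (o : Fin (n + 1) × M.Ψ) (q : M.Q) (s : M.Ψ)
    (o' : Fin (n + 1) × M.Ψ) : Prop :=
  (o' = o ∧ (o.1 = 0 → q ≠ M.qt)) ∨
    (o'.1.val = o.1.val + 1 ∧ o'.2 = s ∧ M.R o.2 s ∧ (o.1 = 0 → q = M.qt))

/-- the annotated states before and after a move -/
def Step (M : SPDA (Fin r)) (n : ℕ) (x : AS M n) (s : M.Ψ) (x' : AS M n) : Prop :=
  x.2.1 = M.src s ∧ x'.2.1 = M.tgt s ∧ x.2.2 ≤ x'.2.2 ∧
    (∀ a ∈ M.inp s, x.2.2 ≤ a ∧ a ≤ x'.2.2) ∧ PhStep M n x.1 x.2.1 s x'.1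

/-- the weight of a move -/
def sw (M : SPDA (Fin r)) (n : ℕ) (s : M.Ψ) (j : Fin (n + 1)) : (Fin (n + 1) ⊕ Fin r) → ℕ :=
  Sum.elim (fun j' => if j' = j then 1 else 0) (fun a => (M.inp s).count a)

/-- annotated computations emptying the pushdown (top on the left) -/
inductive AC (M : SPDA (Fin r)) (n : ℕ) : List M.Γ → AS M n → List (Fin r) → List M.Ψ →
    ((Fin (n + 1) ⊕ Fin r) → ℕ) → AS M n → Prop
  | nil (x : AS M n) : AC M n [] x [] [] 0 x
  | cons (s : M.Ψ) (β : List M.Γ) (x x1 y : AS M n) (v : List (Fin r)) (μ : List M.Ψ)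
      (w : (Fin (n + 1) ⊕ Fin r) → ℕ) : Step M n x s x1 →
      AC M n ((M.psh s).reverse ++ β) x1 v μ w y →
      AC M n (M.top s :: β) x (M.inp s ++ v) (s :: μ) (sw M n s x1.1.1 + w) y

/-- trees of computations -/
inductive Tree (M : SPDA (Fin r)) (n : ℕ) : AS M n → List M.Γ →
    ((Fin (n + 1) ⊕ Fin r) → ℕ) → AS M n → Prop
  | nil (x : AS M n) : Tree M n x [] 0 x
  | node (s : M.Ψ) (β : List M.Γ) (x x1 z y : AS M n)
      (u v : (Fin (n + 1) ⊕ Fin r) → ℕ) : Step M n x s x1 →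
      Tree M n x1 (M.psh s).reverse u z → Tree M n z β v y →
      Tree M n x (M.top s :: β) (sw M n s x1.1.1 + u + v) y

variable {M : SPDA (Fin r)} {n : ℕ}

theorem Tree.split (β1 : List M.Γ) : ∀ {β2 : List M.Γ} {x y : AS M n}
    {v : (Fin (n + 1) ⊕ Fin r) → ℕ}, Tree M n x (β1 ++ β2) v y →
      ∃ z v1 v2, Tree M n x β1 v1 z ∧ Tree M n z β2 v2 y ∧ v = v1 + v2 := by
  induction β1 with
  | nil =>
    intro β2 x y v h
    exact ⟨x, 0, v, Tree.nil x, h, by simp⟩
  | cons Z β1 ih =>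
    intro β2 x y v h
    cases h with
    | node s _ _ x1 z _ u v h1 h2 h3 =>
      obtain ⟨z', v1, v2, h4, h5, rfl⟩ := ih h3
      exact ⟨z', _, v2, Tree.node s β1 x x1 z z' u v1 h1 h2 h4, h5, by abel⟩

theorem AC.tree {β : List M.Γ} {x y : AS M n} {w : List (Fin r)} {μ : List M.Ψ}
    {v : (Fin (n + 1) ⊕ Fin r) → ℕ} (h : AC M n β x w μ v y) : Tree M n x β v y := by
  induction h with
  | nil x => exact Tree.nil x
  | cons s β x x1 y v μ w h1 _ ih =>
    obtain ⟨z, v1, v2, h2, h3, rfl⟩ := Tree.split _ ih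
    have := Tree.node s β x x1 z y v1 v2 h1 h2 h3
    rwa [add_assoc] at this

theorem AC.append {β β' : List M.Γ} {x y z : AS M n} {w w' : List (Fin r)} {μ μ' : List M.Ψ}
    {v v' : (Fin (n + 1) ⊕ Fin r) → ℕ} (h : AC M n β x w μ v y) (h' : AC M n β' y w' μ' v' z) :
    AC M n (β ++ β') x (w ++ w') (μ ++ μ') (v + v') z := by
  induction h with
  | nil x => simpa using h'
  | cons s β x x1 y v μ w h1 _ ih =>
    have h2 := ih h'
    rw [List.append_assoc] at h2
    have := AC.cons s (β ++ β') x x1 z _ _ _ h1 h2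
    rw [List.append_assoc, add_assoc]
    exact this

theorem AC.comp {β : List M.Γ} {x y : AS M n} {w : List (Fin r)} {μ : List M.Ψ}
    {v : (Fin (n + 1) ⊕ Fin r) → ℕ} (h : AC M n β x w μ v y) :
    M.Comp β.reverse x.2.1 w μ [] y.2.1 [] := by
  induction h with
  | nil x => exact SPDA.Comp.nil _ _ _
  | cons s β x x1 y v μ w h1 _ ih =>
    rw [List.reverse_append, List.reverse_reverse, h1.2.1] at ih
    rw [List.reverse_cons, h1.1]
    exact SPDA.Comp.cons s β.reverse v μ [] _ [] ih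

theorem AC.letters {β : List M.Γ} {x y : AS M n} {w : List (Fin r)} {μ : List M.Ψ}
    {v : (Fin (n + 1) ⊕ Fin r) → ℕ} (h : AC M n β x w μ v y) (a : Fin r) :
    v (Sum.inr a) = w.count a := by
  induction h with
  | nil x => rfl
  | cons s β x x1 y v μ w h1 _ ih =>
    rw [Pi.add_apply, ih, List.count_append]
    rfl

/-- The blocks of an annotated computation. -/
theorem AC.blocks {β : List M.Γ} {x y : AS M n} {w : List (Fin r)} {μ : List M.Ψ}
    {v : (Fin (n + 1) ⊕ Fin r) → ℕ} (h : AC M n β x w μ v y) :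
    y.1.1.val = n → (y.1.1 = 0 → y.2.1 = M.qt) →
    ∃ (c : List M.Ψ) (L : List (List M.Ψ)), μ = c ++ L.flatten ∧ L.length + x.1.1.val = n ∧
      List.IsChain M.HeadRel ([x.1.2] :: L) ∧ (x.1.1 = 0 → TQ M x.2.1 c) ∧
      c.length = v (Sum.inl x.1.1) ∧ (∀ b ∈ L, ∃ j, x.1.1 < j ∧ b.length = v (Sum.inl j)) ∧
      ∀ j, j < x.1.1 → v (Sum.inl j) = 0 := by
  induction h with
  | nil x =>
    intro h1 h2
    exact ⟨[], [], rfl, by simpa using h1, by simp, h2, rfl, by simp, fun _ _ => rfl⟩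
  | cons s β x x1 y v μ w h1 _ ih =>
    intro h2 h3
    obtain ⟨c, L, h4, h5, h6, h7, h8, h9, h10⟩ := ih h2 h3
    obtain ⟨g1, g2, -, -, g3⟩ := h1
    rw [g2] at h7
    rcases g3 with ⟨g3, g4⟩ | ⟨g3, g4, g5, g6⟩
    · rw [g3] at h5 h6 h7 h8 h9 h10 ⊢
      refine ⟨s :: c, L, by rw [h4]; rfl, h5, h6, fun h => ⟨g4 h, h7 h⟩, ?_, ?_, ?_⟩
      · rw [Pi.add_apply, ← h8]
        simp [sw, add_comm]
      · intro b hb
        obtain ⟨j, hj1, hj2⟩ := h9 b hb
        refine ⟨j, hj1, ?_⟩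
        rw [Pi.add_apply, ← hj2]
        simp [sw, ne_of_gt hj1]
      · intro j hj
        rw [Pi.add_apply, h10 j hj]
        simp [sw, ne_of_lt hj]
    · have hne : x1.1.1 ≠ 0 := by
        intro h
        rw [h] at g3
        simp at g3
      have hlt : x.1.1 < x1.1.1 := by
        rw [Fin.lt_def]
        omega
      refine ⟨[], (s :: c) :: L, ?_, ?_, ?_, fun h => g6 h, ?_, ?_, ?_⟩
      · rw [h4]
        rfl
      · rw [List.length_cons]
        omega
      · rw [List.isChain_cons_cons]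
        refine ⟨⟨_, s, rfl, rfl, g5⟩, ?_⟩
        refine chain_head (b := [x1.1.2]) ?_ h6
        rw [g4]
        rfl
      · rw [Pi.add_apply, h10 _ hlt]
        simp [sw, ne_of_lt hlt]
      · intro b hb
        rcases List.mem_cons.1 hb with rfl | hb
        · refine ⟨x1.1.1, hlt, ?_⟩
          rw [Pi.add_apply, ← h8]
          simp [sw, add_comm]
        · obtain ⟨j, hj1, hj2⟩ := h9 b hb
          refine ⟨j, hlt.trans hj1, ?_⟩
          rw [Pi.add_apply, ← hj2]
          simp [sw, ne_of_gt hj1]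
      · intro j hj
        have hj' := hj.trans hlt
        rw [Pi.add_apply, h10 j hj']
        simp [sw, ne_of_lt hj']

theorem sorted_split (l : List (Fin r)) : ∀ (v : List (Fin r)) (c : Fin r),
    (l ++ v).Pairwise (· ≤ ·) → (∀ a ∈ l ++ v, c ≤ a) →
      ∃ d, c ≤ d ∧ (∀ a ∈ l, a ≤ d) ∧ ∀ a ∈ v, d ≤ a := by
  induction l with
  | nil =>
    intro v c _ h
    exact ⟨c, le_rfl, by simp, h⟩
  | cons a l ih =>
    intro v c h1 h2
    rw [List.cons_append, List.pairwise_cons] at h1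
    obtain ⟨d, h3, h4, h5⟩ := ih v a h1.2 h1.1
    refine ⟨d, (h2 a (by simp)).trans h3, ?_, h5⟩
    intro b hb
    rcases List.mem_cons.1 hb with rfl | hb
    · exact h3
    · exact h4 b hb

/-- computations of the given form can be annotated -/
def Ann (M : SPDA (Fin r)) (n k : ℕ) (f : M.Q) (c : List M.Ψ) (L : List (List M.Ψ)) : Prop :=
  ∀ (β : List M.Γ) (x : AS M n) (w : List (Fin r)),
    M.Comp β.reverse x.2.1 w (c ++ L.flatten) [] f [] →
    L.length + x.1.1.val = n → List.IsChain M.HeadRel ([x.1.2] :: L) →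
    (x.1.1 = 0 → TQ M x.2.1 c) → (∀ b ∈ L, b.length = k) → w.Pairwise (· ≤ ·) →
    (∀ a ∈ w, x.2.2 ≤ a) →
    ∃ (y : AS M n) (μ : List M.Ψ) (v : (Fin (n + 1) ⊕ Fin r) → ℕ), AC M n β x w μ v y ∧
      y.1.1.val = n ∧ y.2.1 = f ∧ (n = 0 → f = M.qt) ∧ v (Sum.inl x.1.1) = c.length ∧
      (∀ j, x.1.1 < j → v (Sum.inl j) = k) ∧ ∀ j, j < x.1.1 → v (Sum.inl j) = 0

theorem ann_nil {k : ℕ} {f : M.Q} : Ann M n k f [] [] := by
  intro β x w h1 h2 _ h3 _ _ _
  obtain ⟨h4, h5, h6⟩ := Comp.nil_inv h1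
  have h7 : β = [] := by simpa using h4
  subst h7 h6
  have hx : x.1.1.val = n := by simpa using h2
  refine ⟨x, [], 0, AC.nil x, hx, h5, ?_, rfl, ?_, fun _ _ => rfl⟩
  · intro hn
    rw [← h5]
    apply h3
    apply Fin.ext
    rw [hx, hn]
    rfl
  · intro j hj
    have h8 := j.2
    rw [Fin.lt_def] at hj
    omega

theorem ann_same {k : ℕ} {f : M.Q} {c : List M.Ψ} {L : List (List M.Ψ)} (s : M.Ψ)
    (ih : Ann M n k f c L) : Ann M n k f (s :: c) L := by
  intro β x w h1 h2 h3 h4 h5 h6 h7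
  rw [List.cons_append] at h1
  obtain ⟨α', w', e1, e2, e3, e4⟩ := Comp.cons_inv h1
  rw [e3] at h6 h7
  obtain ⟨d, d1, d2, d3⟩ := sorted_split _ _ _ h6 h7
  have hβ : β = M.top s :: α'.reverse := by
    rw [← List.reverse_reverse β, e1]
    simp
  have e4' : M.Comp ((M.psh s).reverse ++ α'.reverse).reverse (M.tgt s) w' (c ++ L.flatten)
      [] f [] := by
    rw [List.reverse_append, List.reverse_reverse, List.reverse_reverse]
    exact e4
  obtain ⟨y, μ, v, g1, g2, g3, g4, g5, g6, g7⟩ := ih _ (x.1, M.tgt s, d) w' e4' h2 h3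
    (fun h => (h4 h).2) h5 (List.pairwise_append.1 h6).2.1 d3
  have hstep : Step M n x s (x.1, M.tgt s, d) := by
    refine ⟨e2, rfl, d1, ?_, Or.inl ⟨rfl, fun h => (h4 h).1⟩⟩
    intro a ha
    exact ⟨h7 a (List.mem_append_left _ ha), d2 a ha⟩
  refine ⟨y, s :: μ, sw M n s x.1.1 + v, ?_, g2, g3, g4, ?_, ?_, ?_⟩
  · rw [e3, hβ]
    exact AC.cons s _ x (x.1, M.tgt s, d) y w' μ v hstep g1
  · rw [Pi.add_apply]
    have : v (Sum.inl x.1.1) = c.length := g5
    rw [this]
    simp [sw, add_comm]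
  · intro j hj
    rw [Pi.add_apply]
    have : v (Sum.inl j) = k := g6 j hj
    rw [this]
    simp [sw, ne_of_gt hj]
  · intro j hj
    rw [Pi.add_apply]
    have : v (Sum.inl j) = 0 := g7 j hj
    rw [this]
    simp [sw, ne_of_lt hj]

theorem ann_new {k : ℕ} {f : M.Q} {c : List M.Ψ} {L : List (List M.Ψ)} (s : M.Ψ)
    (ih : Ann M n k f c L) : Ann M n k f [] ((s :: c) :: L) := by
  intro β x w h1 h2 h3 h4 h5 h6 h7
  rw [List.nil_append, List.flatten_cons, List.cons_append] at h1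
  obtain ⟨α', w', e1, e2, e3, e4⟩ := Comp.cons_inv h1
  rw [e3] at h6 h7
  obtain ⟨d, d1, d2, d3⟩ := sorted_split _ _ _ h6 h7
  have hβ : β = M.top s :: α'.reverse := by
    rw [← List.reverse_reverse β, e1]
    simp
  have e4' : M.Comp ((M.psh s).reverse ++ α'.reverse).reverse (M.tgt s) w' (c ++ L.flatten)
      [] f [] := by
    rw [List.reverse_append, List.reverse_reverse, List.reverse_reverse]
    exact e4
  rw [List.isChain_cons_cons] at h3
  obtain ⟨⟨s1, s2, i1, i2, i3⟩, h3⟩ := h3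
  have i1' : x.1.2 = s1 := Option.some.inj i1
  have i2' : s = s2 := Option.some.inj i2
  subst i1' i2'
  rw [List.length_cons] at h2
  obtain ⟨j1, hj1⟩ : ∃ j1 : Fin (n + 1), j1.val = x.1.1.val + 1 := ⟨⟨x.1.1.val + 1, by omega⟩, rfl⟩
  have hlt : x.1.1 < j1 := by
    rw [Fin.lt_def]
    omega
  have hne : j1 ≠ 0 := by
    intro h
    rw [h] at hj1
    simp at hj1
  have hk : c.length + 1 = k := h5 (s :: c) (by simp)
  obtain ⟨y, μ, v, g1, g2, g3, g4, g5, g6, g7⟩ := ih _ ((j1, s), M.tgt s, d) w' e4'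
    (by simp only; omega) (chain_head (by rfl) h3)
    (fun h => absurd h hne) (fun b hb => h5 b (by simp [hb]))
    (List.pairwise_append.1 h6).2.1 d3
  have hstep : Step M n x s ((j1, s), M.tgt s, d) := by
    refine ⟨e2, rfl, d1, ?_, Or.inr ⟨hj1, rfl, i3, h4⟩⟩
    intro a ha
    exact ⟨h7 a (List.mem_append_left _ ha), d2 a ha⟩
  refine ⟨y, s :: μ, sw M n s j1 + v, ?_, g2, g3, g4, ?_, ?_, ?_⟩
  · rw [e3, hβ]
    exact AC.cons s _ x _ y w' μ v hstep g1
  · rw [Pi.add_apply]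
    have : v (Sum.inl x.1.1) = 0 := g7 _ hlt
    rw [this]
    simp [sw, ne_of_lt hlt]
  · intro j hj
    rw [Pi.add_apply]
    rcases eq_or_ne j j1 with rfl | hjj
    · have : v (Sum.inl j) = c.length := g5
      rw [this, ← hk]
      simp [sw, add_comm]
    · have hj2 : j1 < j := by
        rw [Fin.lt_def] at hj ⊢
        have : j.val ≠ j1.val := fun h => hjj (Fin.ext h)
        omega
      have : v (Sum.inl j) = k := g6 j hj2
      rw [this]
      simp [sw, hjj]
  · intro j hj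
    have hj' := hj.trans hlt
    rw [Pi.add_apply]
    have : v (Sum.inl j) = 0 := g7 j hj'
    rw [this]
    simp [sw, ne_of_lt hj']

theorem annotate {k : ℕ} {f : M.Q} (L : List (List M.Ψ)) (hL : ∀ b ∈ L, b ≠ []) :
    ∀ (c : List M.Ψ), Ann M n k f c L := by
  induction L with
  | nil =>
    intro c
    induction c with
    | nil => exact ann_nil
    | cons s c ih => exact ann_same s ih
  | cons b L ih =>
    intro c
    induction c with
    | nil =>
      obtain ⟨s, b', rfl⟩ := List.exists_cons_of_ne_nil (hL b (by simp))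
      exact ann_new s (ih (fun b hb => hL b (by simp [hb])) b')
    | cons s c ih' => exact ann_same s ih'

/-- the nonterminals -/
abbrev NN (M : SPDA (Fin r)) (n K : ℕ) : Type :=
  AS M n × {l : List M.Γ // l.length ≤ K} × AS M n

/-- the leaves -/
def nlf (M : SPDA (Fin r)) (n K : ℕ) (A : NN M n K) : Prop := A.2.1.1 = [] ∧ A.1 = A.2.2

/-- the productions -/
def nP (M : SPDA (Fin r)) (n K : ℕ) (A : NN M n K) (w : (Fin (n + 1) ⊕ Fin r) → ℕ)
    (B C : NN M n K) : Prop :=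
  ∃ s, Step M n A.1 s B.1 ∧ A.2.1.1 = M.top s :: C.2.1.1 ∧ B.2.1.1 = (M.psh s).reverse ∧
    B.2.2 = C.1 ∧ C.2.2 = A.2.2 ∧ w = sw M n s B.1.1.1

theorem NN_finite (M : SPDA (Fin r)) (n K : ℕ) : Finite (NN M n K) := by
  have h1 := M.finQ
  have h2 := M.finΓ
  have h3 := M.finΨ
  have h4 : Finite {l : List M.Γ // l.length ≤ K} := (List.finite_length_le M.Γ K).to_subtype
  infer_instance

theorem nP_finite (M : SPDA (Fin r)) (n K : ℕ) :
    {x : NN M n K × ((Fin (n + 1) ⊕ Fin r) → ℕ) × NN M n K × NN M n K |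
      nP M n K x.1 x.2.1 x.2.2.1 x.2.2.2}.Finite := by
  have h1 := NN_finite M n K
  have h3 := M.finΨ
  refine Set.Finite.subset (Set.finite_univ.prod ((Set.finite_range
    (fun p : M.Ψ × Fin (n + 1) => sw M n p.1 p.2)).prod Set.finite_univ)) ?_
  rintro ⟨A, w, B, C⟩ ⟨s, -, -, -, -, -, h⟩
  exact ⟨trivial, ⟨(s, B.1.1.1), h.symm⟩, trivial⟩

theorem nlf_range {K : ℕ} : ∀ A : NN M n K, nlf M n K A → A.1.2.2 = A.2.2.2.2 := by
  rintro A ⟨-, h⟩
  rw [h]

theorem nP_range {K : ℕ} : ∀ (A : NN M n K) w (B C : NN M n K), nP M n K A w B C →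
    A.1.2.2 ≤ B.1.2.2 ∧ B.2.2.2.2 = C.1.2.2 ∧ C.2.2.2.2 = A.2.2.2.2 ∧
      ∀ a, w (Sum.inr a) ≠ 0 → A.1.2.2 ≤ a ∧ a ≤ B.1.2.2 := by
  rintro A w B C ⟨s, h1, h2, h3, h4, h5, rfl⟩
  refine ⟨h1.2.2.1, by rw [h4], by rw [h5], ?_⟩
  intro a ha
  have h6 : (M.inp s).count a ≠ 0 := ha
  exact h1.2.2.2.1 a (List.count_pos_iff.1 (Nat.pos_of_ne_zero h6))

theorem Tree.der {K : ℕ} (hK : ∀ s, (M.psh s).length ≤ K) {x y : AS M n} {β : List M.Γ}
    {v : (Fin (n + 1) ⊕ Fin r) → ℕ} (h : Tree M n x β v y) :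
    ∀ hβ : β.length ≤ K, ∃ U, Der (nlf M n K) (nP M n K) (x, ⟨β, hβ⟩, y) U v := by
  induction h with
  | nil x => exact fun hβ => ⟨_, Der.leaf _ ⟨rfl, rfl⟩⟩
  | node s β x x1 z y u v h1 _ _ ih1 ih2 =>
    intro hβ
    obtain ⟨U, hU⟩ := ih1 (by rw [List.length_reverse]; exact hK s)
    obtain ⟨V, hV⟩ := ih2 (by rw [List.length_cons] at hβ; omega)
    have hβ' : β.length ≤ K := by rw [List.length_cons] at hβ; omega
    have hP : nP M n K (x, ⟨M.top s :: β, hβ⟩, y) (sw M n s x1.1.1)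
      (x1, ⟨(M.psh s).reverse, by rw [List.length_reverse]; exact hK s⟩, z)
      (z, ⟨β, hβ'⟩, y) := ⟨s, h1, rfl, rfl, rfl, rfl, rfl⟩
    exact ⟨_, Der.node _ _ _ _ _ _ _ _ hP hU hV⟩

theorem Der.ac {K : ℕ} {A : NN M n K} {U : Set (NN M n K)} {v : (Fin (n + 1) ⊕ Fin r) → ℕ}
    (h : Der (nlf M n K) (nP M n K) A U v) :
    ∃ w μ, AC M n A.2.1.1 A.1 w μ v A.2.2 := by
  induction h with
  | leaf A h =>
    obtain ⟨h1, h2⟩ := h
    refine ⟨[], [], ?_⟩
    rw [h1, h2]
    exact AC.nil _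
  | node A B C w u v U V h _ _ ih1 ih2 =>
    obtain ⟨s, h1, h2, h3, h4, h5, rfl⟩ := h
    obtain ⟨w1, μ1, h6⟩ := ih1
    obtain ⟨w2, μ2, h7⟩ := ih2
    rw [h3, h4] at h6
    rw [h5] at h7
    refine ⟨M.inp s ++ (w1 ++ w2), s :: (μ1 ++ μ2), ?_⟩
    rw [h2, add_assoc]
    exact AC.cons s _ _ _ _ _ _ _ h1 (h6.append h7)

theorem psh_bound (M : SPDA (Fin r)) : ∃ K, ∀ s, (M.psh s).length ≤ K := by
  have h3 := M.finΨ
  obtain ⟨K, hK⟩ := (Set.finite_range (fun s => (M.psh s).length)).bddAbove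
  exact ⟨K, fun s => hK ⟨s, rfl⟩⟩

theorem not_mem (M : SPDA (Fin r)) (n : ℕ) (hr : 2 * (n + 1) < r)
    (h1 : ∀ i, ∃ w ∈ M.lang n, w.Pairwise (· ≤ ·) ∧ ∀ a, w.count a = i + 1)
    (h2 : ∀ w ∈ M.lang n, ∀ a b, w.count a = w.count b) : False := by
  obtain ⟨K, hK⟩ := psh_bound M
  have hfinN := NN_finite M n K
  obtain ⟨A, U, v, hG, hD, hph, a, b, hab⟩ := abs_pump (N := NN M n K) (lf := nlf M n K)
    (P := nP M n K) (lo := fun A => A.1.2.2) (hi := fun A => A.2.2.2.2) nlf_range nP_range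
    (nP_finite M n K) hr
    (fun A => A.1.1.1 = 0 ∧ M.src A.1.1.2 = M.q0 ∧ M.top A.1.1.2 = M.Z0 ∧
      A.1.2.1 = M.tgt A.1.1.2 ∧ A.2.1.1 = (M.psh A.1.1.2).reverse ∧ A.2.2.1.1.val = n ∧
      A.2.2.2.1 ∈ M.F ∧ (n = 0 → A.2.2.2.1 = M.qt))
    (fun A => sw M n A.1.1.2 0) (by
      intro i
      obtain ⟨w, ⟨f, hf, k, hk, b, L, hL, hlen, hcomp, ⟨ν, r', hb, htgt, hν⟩, hchain⟩,
        hsort, hcount⟩ := h1 i
      have hbk : b.length = k := hlen b (by simp)
      obtain ⟨s0, c, rfl⟩ : ∃ s0 c, b = s0 :: c := by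
        rcases b with - | ⟨s0, c⟩
        · simp at hbk
          omega
        · exact ⟨_, _, rfl⟩
      rw [List.flatten_cons, List.cons_append] at hcomp
      obtain ⟨α', w', e1, e2, e3, e4⟩ := Comp.cons_inv hcomp
      have hα : α' = [] := one_sing e1
      subst hα
      have e1' : M.Z0 = M.top s0 := by simpa using e1
      rw [e3] at hsort
      have hr0 : 0 < r := by omega
      obtain ⟨d, d1, d2, d3⟩ := sorted_split (M.inp s0) w' ⟨0, hr0⟩ hsort (by
        intro a _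
        rw [Fin.le_def]
        exact Nat.zero_le _)
      rw [List.nil_append] at e4
      have e4' : M.Comp ((M.psh s0).reverse).reverse (M.tgt s0) w' (c ++ L.flatten) [] f [] := by
        rw [List.reverse_reverse]
        exact e4
      obtain ⟨y, μ, v, g1, g2, g3, g4, g5, g6, g7⟩ := annotate (M := M) (n := n) (k := k) (f := f) L
        (by
          intro b hb hb0
          have := hlen b (by simp [hb])
          rw [hb0] at this
          simp at this
          omega) c _ ((0, s0), M.tgt s0, d) w' e4'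
        (by simp only [Fin.val_zero, add_zero]; exact hL) (chain_head (by rfl) hchain)
        (fun _ => (TQ_iff c s0).2 ⟨ν, r', hb, htgt, hν⟩)
        (fun b hb => hlen b (by simp [hb])) (List.pairwise_append.1 hsort).2.1 d3
      obtain ⟨U, hU⟩ := g1.tree.der hK (by rw [List.length_reverse]; exact hK s0)
      have hkc : c.length + 1 = k := by simpa using hbk
      have hall : ∀ j, (sw M n s0 0 + v) (Sum.inl j) = k := by
        intro j
        rw [Pi.add_apply]
        rcases Fin.eq_zero_or_eq_succ j with rfl | ⟨j', rfl⟩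
        · have : v (Sum.inl 0) = c.length := g5
          rw [this, ← hkc]
          simp [sw, add_comm]
        · have : v (Sum.inl j'.succ) = k := g6 _ (Fin.succ_pos j')
          rw [this]
          simp [sw, Fin.succ_ne_zero]
      refine ⟨_, U, v, ⟨rfl, e2.symm, e1'.symm, rfl, rfl, g2, ?_, ?_⟩, hU, ?_, ?_⟩
      · change y.2.1 ∈ M.F
        rw [g3]
        exact hf
      · intro hn
        change y.2.1 = M.qt
        rw [g3]
        exact g4 hn
      · intro j
        exact (hall j).trans (hall 0).symm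
      · intro a
        have h3 := g1.letters a
        have h4 := hcount a
        rw [e3, List.count_append] at h4
        rw [Pi.add_apply, h3]
        exact h4)
  obtain ⟨hG1, hG2, hG3, hG4, hG5, hG6, hG7, hG8⟩ := hG
  obtain ⟨w', μ, hac⟩ := hD.ac
  obtain ⟨c, L, f1, f2, f3, f4, f5, f6, f7⟩ := hac.blocks hG6 (by
    intro h
    apply hG8
    rw [h] at hG6
    exact hG6.symm)
  have hw : M.inp A.1.1.2 ++ w' ∈ M.lang n := by
    refine ⟨A.2.2.2.1, hG7, c.length + 1, by omega, A.1.1.2 :: c, L, ?_, ?_, ?_, ?_, ?_⟩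
    · rw [hG1] at f2
      simpa using f2
    · intro b hb
      rcases List.mem_cons.1 hb with rfl | hb
      · simp
      · obtain ⟨j, hj1, hj2⟩ := f6 b hb
        have h3 := hph j
        rw [Pi.add_apply, Pi.add_apply, ← hj2] at h3
        rw [hG1] at hj1 f5
        rw [← f5] at h3
        simp only [sw, Sum.elim_inl, if_neg (ne_of_gt hj1)] at h3
        simp only [↓reduceIte] at h3
        omega
    · have h3 := hac.comp
      rw [hG5, List.reverse_reverse, hG4, f1] at h3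
      have h4 := SPDA.Comp.cons A.1.1.2 [] w' _ _ _ _ h3
      rw [hG3, hG2] at h4
      exact h4
    · have h3 := f4 hG1
      rw [hG4] at h3
      exact (TQ_iff c _).1 h3
    · exact chain_head (by rfl) f3
  apply hab
  have h3 := h2 _ hw a b
  rw [List.count_append, List.count_append, ← hac.letters a, ← hac.letters b] at h3
  exact h3

end Pool.Agent.V11233.SR
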