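import Mathlib

/-!
First-move self-regulating pushdown automata.
-/

set_option autoImplicit false

namespace Pool.Agent.V11233.SR

/-- A self-regulating pushdown automaton over the input alphabet `S`. The finite set `Ψ` is the set
of labels of the rules; the rule with the label `r` is `Z q x → γ p` with `Z = top r`, `q = src r`,
`x = inp r`, `γ = psh r`, `p = tgt r` (the top of the pushdown is on the right); different labels
belong to different rules; `qt` is the turn state and `R` the relation between labels. -/
structure SPDA (S : Type) where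
  Q : Type
  Γ : Type
  Ψ : Type
  finQ : Finite Q
  finΓ : Finite Γ
  finΨ : Finite Ψ
  top : Ψ → Γ
  src : Ψ → Q
  inp : Ψ → List S
  psh : Ψ → List Γ
  tgt : Ψ → Q
  rule_inj : ∀ r s : Ψ, top r = top s → src r = src s → inp r = inp s → psh r = psh s →
    tgt r = tgt s → r = s
  q0 : Q
  qt : Q
  Z0 : Γ
  F : Set Q
  R : Ψ → Ψ → Prop

/-- `M.Comp α q v μ β p u`: from the configuration `α q v` the moves with the labels `μ` lead to the
configuration `β p u`. -/
inductive SPDA.Comp {S : Type} (M : SPDA S) :
    List M.Γ → M.Q → List S → List M.Ψ → List M.Γ → M.Q → List S → Prop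
  | nil (α : List M.Γ) (q : M.Q) (v : List S) : SPDA.Comp M α q v [] α q v
  | cons (r : M.Ψ) (α : List M.Γ) (v : List S) (μ : List M.Ψ) (β : List M.Γ) (p : M.Q)
      (u : List S) : SPDA.Comp M (α ++ M.psh r) (M.tgt r) v μ β p u →
      SPDA.Comp M (α ++ [M.top r]) (M.src r) (M.inp r ++ v) (r :: μ) β p u

/-- the first labels of two blocks are related -/
def SPDA.HeadRel {S : Type} (M : SPDA S) (b c : List M.Ψ) : Prop :=
  ∃ r s, b.head? = some r ∧ c.head? = some s ∧ M.R r s

/-- The words accepted by `n`-turn first-move computations: for some `k ≥ 1` the sequence of labels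
consists of `n + 1` blocks of length `k` (the first block is `b`, the list of the others is `L`);
the last label of the first block is the earliest one whose rule leads to the turn state; the first
labels of successive blocks are related. -/
def SPDA.lang {S : Type} (M : SPDA S) (n : ℕ) : Set (List S) :=
  {w | ∃ f ∈ M.F, ∃ k : ℕ, 1 ≤ k ∧ ∃ (b : List M.Ψ) (L : List (List M.Ψ)),
    L.length = n ∧ (∀ c ∈ b :: L, c.length = k) ∧
    M.Comp [M.Z0] M.q0 w (b :: L).flatten [] f [] ∧
    (∃ (ν : List M.Ψ) (r : M.Ψ), b = ν ++ [r] ∧ M.tgt r = M.qt ∧ ∀ s ∈ ν, M.tgt s ≠ M.qt) ∧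
    List.IsChain M.HeadRel (b :: L)}

/-- The family `FSPDA_n`, restricted to the languages over the alphabet `S`. -/
def FSPDA (n : ℕ) (S : Type) : Set (Set (List S)) := {L | ∃ M : SPDA S, L = M.lang n}

end Pool.Agent.V11233.SR
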