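import Mathlib

/-!
Binary grammars with weights: decomposition of derivations and pumping.
-/

set_option autoImplicit false

namespace Pool.Agent.V11233.SR

section Gram

variable {N ι : Type} {lf : N → Prop} {P : N → (ι → ℕ) → N → N → Prop}

/-- derivation trees; the set is the set of the nonterminals in the tree -/
inductive Der (lf : N → Prop) (P : N → (ι → ℕ) → N → N → Prop) : N → Set N → (ι → ℕ) → Prop
  | leaf (A : N) : lf A → Der lf P A {A} 0
  | node (A B C : N) (w u v : ι → ℕ) (U V : Set N) : P A w B C → Der lf P B U u →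
      Der lf P C V v → Der lf P A (insert A (U ∪ V)) (w + u + v)

/-- trees with a hole -/
inductive Ctx (lf : N → Prop) (P : N → (ι → ℕ) → N → N → Prop) : N → N → (ι → ℕ) → Prop
  | hole (A : N) : Ctx lf P A A 0
  | left (A B C D : N) (w c v : ι → ℕ) (V : Set N) : P A w B C → Ctx lf P B D c →
      Der lf P C V v → Ctx lf P A D (w + c + v)
  | right (A B C D : N) (w u c : ι → ℕ) (U : Set N) : P A w B C → Der lf P B U u →
      Ctx lf P C D c → Ctx lf P A D (w + u + c)

/-- trees in which no nonterminal occurs twice on a path, nor one of the set `X` -/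
inductive Red (lf : N → Prop) (P : N → (ι → ℕ) → N → N → Prop) : Set N → N → (ι → ℕ) → Prop
  | leaf (X : Set N) (A : N) : A ∉ X → lf A → Red lf P X A 0
  | node (X : Set N) (A B C : N) (w u v : ι → ℕ) : A ∉ X → P A w B C →
      Red lf P (insert A X) B u → Red lf P (insert A X) C v → Red lf P X A (w + u + v)

theorem Red.mono {X : Set N} {A : N} {v : ι → ℕ} (h : Red lf P X A v) :
    ∀ {Y : Set N}, Y ⊆ X → Red lf P Y A v := by
  induction h with
  | leaf X A h1 h2 => exact fun hY => Red.leaf _ _ (fun h => h1 (hY h)) h2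
  | node X A B C w u v h1 h2 _ _ ih1 ih2 =>
    intro Y hY
    exact Red.node _ _ _ _ _ _ _ (fun h => h1 (hY h)) h2 (ih1 (Set.insert_subset_insert hY))
      (ih2 (Set.insert_subset_insert hY))

theorem Red.der {X : Set N} {A : N} {v : ι → ℕ} (h : Red lf P X A v) : ∃ U, Der lf P A U v := by
  induction h with
  | leaf X A h1 h2 => exact ⟨_, Der.leaf A h2⟩
  | node X A B C w u v h1 h2 _ _ ih1 ih2 =>
    obtain ⟨U, hU⟩ := ih1
    obtain ⟨V, hV⟩ := ih2
    exact ⟨_, Der.node _ _ _ _ _ _ _ _ h2 hU hV⟩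

theorem Der.mem {A : N} {U : Set N} {v : ι → ℕ} (h : Der lf P A U v) : A ∈ U := by
  cases h with
  | leaf => exact rfl
  | node => exact Or.inl rfl

theorem Red.split {X : Set N} {B : N} {u : ι → ℕ} (h : Red lf P X B u) (A : N) :
    Red lf P (insert A X) B u ∨ ∃ c s, u = c + s ∧ Red lf P ∅ A s ∧ Ctx lf P B A c := by
  induction h with
  | leaf X B h1 h2 =>
    by_cases hB : B = A
    · subst hB
      exact Or.inr ⟨0, 0, by simp, Red.leaf _ _ (by simp) h2, Ctx.hole _⟩
    · refine Or.inl (Red.leaf _ _ ?_ h2)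
      simp only [Set.mem_insert_iff, not_or]
      exact ⟨hB, h1⟩
  | node X B C D w u v h1 h2 h3 h4 ih1 ih2 =>
    by_cases hB : B = A
    · subst hB
      exact Or.inr ⟨0, w + u + v, by simp, (Red.node _ _ _ _ _ _ _ h1 h2 h3 h4).mono (by simp),
        Ctx.hole _⟩
    · rcases ih1 with h5 | ⟨c, s, h5, h6, h7⟩
      · rcases ih2 with h8 | ⟨c, s, h8, h9, h10⟩
        · refine Or.inl (Red.node _ _ _ _ _ _ _ ?_ h2 ?_ ?_)
          · simp only [Set.mem_insert_iff, not_or]
            exact ⟨hB, h1⟩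
          · rw [Set.insert_comm]
            exact h5
          · rw [Set.insert_comm]
            exact h8
        · obtain ⟨U, hU⟩ := h3.der
          refine Or.inr ⟨w + u + c, s, ?_, h9, Ctx.right _ _ _ _ _ _ _ _ h2 hU h10⟩
          rw [h8]
          abel
      · obtain ⟨V, hV⟩ := h4.der
        refine Or.inr ⟨w + c + v, s, ?_, h6, Ctx.left _ _ _ _ _ _ _ _ h2 h7 hV⟩
        rw [h5]
        abel

theorem Red.finite [Finite N]
    (hP : {x : N × (ι → ℕ) × N × N | P x.1 x.2.1 x.2.2.1 x.2.2.2}.Finite) :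
    ∀ (m : ℕ) (X : Set N) (A : N), (Xᶜ).ncard = m → {v | Red lf P X A v}.Finite := by
  intro m
  induction m using Nat.strong_induction_on with
  | _ m ih =>
    intro X A hm
    by_cases hA : A ∈ X
    · refine Set.Finite.subset Set.finite_empty ?_
      intro v hv
      cases (show Red lf P X A v from hv) with
      | leaf _ _ h => exact absurd hA h
      | node _ _ _ _ _ _ _ h => exact absurd hA h
    · have hlt : ((insert A X)ᶜ).ncard < m := by
        rw [← hm]
        apply Set.ncard_lt_ncard _ (Set.toFinite _)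
        constructor
        · exact Set.compl_subset_compl.2 (Set.subset_insert _ _)
        · intro h
          exact h (show A ∈ Xᶜ from hA) (Set.mem_insert _ _)
      have hfin : ∀ B, {v | Red lf P (insert A X) B v}.Finite := fun B => ih _ hlt _ B rfl
      refine Set.Finite.subset ((Set.finite_singleton (0 : ι → ℕ)).union
        (hP.biUnion (t := fun x => Set.image2 (fun u v => x.2.1 + u + v)
          {v | Red lf P (insert A X) x.2.2.1 v} {v | Red lf P (insert A X) x.2.2.2 v})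
          (fun x _ => (hfin _).image2 _ (hfin _)))) ?_
      intro v hv
      cases (show Red lf P X A v from hv) with
      | leaf _ _ h => exact Or.inl rfl
      | node _ _ B C w u v h1 h2 h3 h4 =>
        refine Or.inr ?_
        simp only [Set.mem_iUnion]
        exact ⟨(A, w, B, C), h2, u, h3, v, h4, rfl⟩

theorem Ctx.fill {A D : N} {c : ι → ℕ} (h : Ctx lf P A D c) : ∀ {U : Set N} {v : ι → ℕ},
    Der lf P D U v → ∃ U', U ⊆ U' ∧ Der lf P A U' (c + v) := by
  induction h with
  | hole A =>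
    intro U v hv
    exact ⟨U, subset_rfl, by simpa using hv⟩
  | left A B C D w c v V h1 _ h3 ih =>
    intro U u hu
    obtain ⟨U', h4, h5⟩ := ih hu
    refine ⟨insert A (U' ∪ V), fun x hx => Or.inr (Or.inl (h4 hx)), ?_⟩
    have := Der.node _ _ _ _ _ _ _ _ h1 h5 h3
    have e : w + c + v + u = w + (c + u) + v := by abel
    rw [e]
    exact this
  | right A B C D w u c U h1 h2 _ ih =>
    intro V v hv
    obtain ⟨U', h4, h5⟩ := ih hv
    refine ⟨insert A (U ∪ U'), fun x hx => Or.inr (Or.inr (h4 hx)), ?_⟩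
    have := Der.node _ _ _ _ _ _ _ _ h1 h2 h5
    have e : w + u + c + v = w + u + (c + v) := by abel
    rw [e]
    exact this

theorem Der.pump {A : N} {U : Set N} {v : ι → ℕ} (h : Der lf P A U v) :
    ∀ {D : N} {p : ι → ℕ}, D ∈ U → Ctx lf P D D p →
      ∃ U', U ⊆ U' ∧ Der lf P A U' (v + p) := by
  induction h with
  | leaf A h =>
    intro D p hD hp
    have : D = A := hD
    subst this
    obtain ⟨U', h1, h2⟩ := hp.fill (Der.leaf D h)
    exact ⟨U', h1, by rwa [add_comm]⟩
  | node A B C w u v U V h1 h2 h3 ih1 ih2 =>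
    intro D p hD hp
    rcases hD with rfl | hD | hD
    · obtain ⟨U', h4, h5⟩ := hp.fill (Der.node _ _ _ _ _ _ _ _ h1 h2 h3)
      exact ⟨U', h4, by rwa [add_comm]⟩
    · obtain ⟨U', h4, h5⟩ := ih1 hD hp
      refine ⟨insert A (U' ∪ V), ?_, ?_⟩
      · rintro x (rfl | hx | hx)
        · exact Or.inl rfl
        · exact Or.inr (Or.inl (h4 hx))
        · exact Or.inr (Or.inr hx)
      · have := Der.node _ _ _ _ _ _ _ _ h1 h5 h3
        have e : w + u + v + p = w + (u + p) + v := by abel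
        rw [e]
        exact this
    · obtain ⟨U', h4, h5⟩ := ih2 hD hp
      refine ⟨insert A (U ∪ U'), ?_, ?_⟩
      · rintro x (rfl | hx | hx)
        · exact Or.inl rfl
        · exact Or.inr (Or.inl hx)
        · exact Or.inr (Or.inr (h4 hx))
      · have := Der.node _ _ _ _ _ _ _ _ h1 h2 h5
        have e : w + u + v + p = w + u + (v + p) := by abel
        rw [e]
        exact this

theorem Der.pump_many {A D : N} {p : ι → ℕ} (hp : Ctx lf P D D p) (m : ℕ) :
    ∀ {U : Set N} {v : ι → ℕ}, Der lf P A U v → D ∈ U →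
      ∃ U', U ⊆ U' ∧ Der lf P A U' (v + m • p) := by
  induction m with
  | zero =>
    intro U v h hD
    exact ⟨U, subset_rfl, by simpa using h⟩
  | succ m ih =>
    intro U v h hD
    obtain ⟨U1, h1, h2⟩ := ih h hD
    obtain ⟨U2, h3, h4⟩ := h2.pump (h1 hD) hp
    refine ⟨U2, h1.trans h3, ?_⟩
    rw [succ_nsmul, ← add_assoc]
    exact h4

/-- the index set of the bounded pumps -/
abbrev Pm (N ι : Type) (K : ℕ) : Type := N × (ι → Fin (K + 1))

/-- the weight of a pump -/
def wt {K : ℕ} (x : Pm N ι K) : ι → ℕ := fun i => (x.2 i : ℕ)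

theorem Der.pump_sum {K : ℕ} {A : N} {U : Set N} {v : ι → ℕ} (h : Der lf P A U v)
    (ρ : Pm N ι K → ℕ) (hρ : ∀ x, ρ x ≠ 0 → x.1 ∈ U ∧ Ctx lf P x.1 x.1 (wt x))
    (T : Finset (Pm N ι K)) :
    ∃ U', U ⊆ U' ∧ Der lf P A U' (v + ∑ x ∈ T, ρ x • wt x) := by
  classical
  induction T using Finset.induction_on with
  | empty => exact ⟨U, subset_rfl, by simpa using h⟩
  | insert x T hx ih =>
    obtain ⟨U1, h1, h2⟩ := ih
    by_cases h0 : ρ x = 0
    · refine ⟨U1, h1, ?_⟩
      rw [Finset.sum_insert hx, h0, zero_smul, zero_add]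
      exact h2
    · obtain ⟨h3, h4⟩ := hρ x h0
      obtain ⟨U2, h5, h6⟩ := Der.pump_many h4 (ρ x) h2 (h1 h3)
      refine ⟨U2, h1.trans h5, ?_⟩
      rw [Finset.sum_insert hx]
      have e : v + (ρ x • wt x + ∑ x ∈ T, ρ x • wt x) =
        v + ∑ x ∈ T, ρ x • wt x + ρ x • wt x := by abel
      rw [e]
      exact h6

theorem exists_bound [Finite N] [Fintype ι]
    (hP : {x : N × (ι → ℕ) × N × N | P x.1 x.2.1 x.2.2.1 x.2.2.2}.Finite) :
    ∃ K : ℕ, (∀ A s, Red lf P ∅ A s → ∀ i, s i ≤ K) ∧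
      ∀ A B C w u v, P A w B C → Red lf P ∅ B u → Red lf P ∅ C v → ∀ i, (w + u + v) i ≤ K := by
  have hfin : ∀ B, {v | Red lf P ∅ B v}.Finite := fun B => Red.finite hP _ ∅ B rfl
  have h1 : (⋃ A, {v | Red lf P ∅ A v}).Finite := Set.finite_iUnion hfin
  have h2 : (⋃ x ∈ {x : N × (ι → ℕ) × N × N | P x.1 x.2.1 x.2.2.1 x.2.2.2},
      Set.image2 (fun u v => x.2.1 + u + v)
          {v | Red lf P ∅ x.2.2.1 v} {v | Red lf P ∅ x.2.2.2 v}).Finite :=
    hP.biUnion (fun x _ => (hfin _).image2 _ (hfin _))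
  have h3 := h1.union h2
  have h4 := (h3.image (fun v : ι → ℕ => ∑ i, v i)).bddAbove
  obtain ⟨K, hK⟩ := h4
  have key : ∀ v ∈ ((⋃ A, {v | Red lf P ∅ A v}) ∪
      (⋃ x ∈ {x : N × (ι → ℕ) × N × N | P x.1 x.2.1 x.2.2.1 x.2.2.2},
      Set.image2 (fun u v => x.2.1 + u + v)
          {v | Red lf P ∅ x.2.2.1 v} {v | Red lf P ∅ x.2.2.2 v})), ∀ i, v i ≤ K := by
    intro v hv i
    have h5 : ∑ i, v i ≤ K := hK ⟨v, hv, rfl⟩
    exact (Finset.single_le_sum (fun j _ => Nat.zero_le (v j)) (Finset.mem_univ i)).trans h5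
  refine ⟨K, fun A s hs => key s (Or.inl (Set.mem_iUnion.2 ⟨A, hs⟩)), ?_⟩
  intro A B C w u v h1 h2 h3
  refine key _ (Or.inr ?_)
  simp only [Set.mem_iUnion]
  exact ⟨(A, w, B, C), h1, u, h2, v, h3, rfl⟩

theorem decomp [Fintype N] [Fintype ι] [DecidableEq ι] {K : ℕ}
    (hK : ∀ A B C w u v, P A w B C → Red lf P ∅ B u → Red lf P ∅ C v → ∀ i, (w + u + v) i ≤ K)
    {A : N} {U : Set N} {v : ι → ℕ} (h : Der lf P A U v) :
    ∃ s, Red lf P ∅ A s ∧ ∃ l : Pm N ι K → ℕ, v = s + ∑ x, l x • wt x ∧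
      ∀ x, l x ≠ 0 → x.1 ∈ U ∧ Ctx lf P x.1 x.1 (wt x) := by
  classical
  induction h with
  | leaf A h => exact ⟨0, Red.leaf _ _ (by simp) h, 0, by simp, by simp⟩
  | node A B C w u v U V h1 h2 h3 ih1 ih2 =>
    obtain ⟨s1, h4, l1, h5, h6⟩ := ih1
    obtain ⟨s2, h7, l2, h8, h9⟩ := ih2
    have hadd : ∀ x, (l1 + l2) x ≠ 0 → x.1 ∈ insert A (U ∪ V) ∧ Ctx lf P x.1 x.1 (wt x) := by
      intro x hx
      have : l1 x ≠ 0 ∨ l2 x ≠ 0 := by
        by_contra hcon
        push Not at hcon
        exact hx (by rw [Pi.add_apply, hcon.1, hcon.2])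
      rcases this with h | h
      · exact ⟨Or.inr (Or.inl (h6 x h).1), (h6 x h).2⟩
      · exact ⟨Or.inr (Or.inr (h9 x h).1), (h9 x h).2⟩
    have hsum : ∑ x, (l1 + l2) x • wt x = ∑ x, l1 x • wt x + ∑ x, l2 x • wt x := by
      rw [← Finset.sum_add_distrib]
      refine Finset.sum_congr rfl (fun x _ => ?_)
      rw [Pi.add_apply, add_smul]
    have hgen : ∀ (p s : ι → ℕ), p + s = w + s1 + s2 → Red lf P ∅ A s → Ctx lf P A A p →
        ∃ s, Red lf P ∅ A s ∧ ∃ l : Pm N ι K → ℕ, w + u + v = s + ∑ x, l x • wt x ∧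
          ∀ x, l x ≠ 0 → x.1 ∈ insert A (U ∪ V) ∧ Ctx lf P x.1 x.1 (wt x) := by
      intro p s hps hs hp
      have hp1 : ∀ i, p i < K + 1 := by
        intro i
        have := hK A B C w s1 s2 h1 h4 h7 i
        rw [← hps] at this
        have h10 : p i + s i ≤ K := this
        omega
      obtain ⟨x0, hx0⟩ : ∃ x0 : Pm N ι K, x0 = (A, fun i => ⟨p i, hp1 i⟩) := ⟨_, rfl⟩
      have hw0 : wt x0 = p := by
        rw [hx0]
        rfl
      refine ⟨s, hs, l1 + l2 + (Pi.single x0 1 : Pm N ι K → ℕ), ?_, ?_⟩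
      · have e : ∑ x, (l1 + l2 + (Pi.single x0 1 : Pm N ι K → ℕ)) x • wt x =
            ∑ x, (l1 + l2) x • wt x + p := by
          have e1 : ∀ x, (l1 + l2 + (Pi.single x0 1 : Pm N ι K → ℕ)) x • wt x =
              (l1 + l2) x • wt x + (Pi.single x0 1 : Pm N ι K → ℕ) x • wt x := by
            intro x
            rw [← add_smul]
            rfl
          rw [Finset.sum_congr rfl (fun x _ => e1 x), Finset.sum_add_distrib]
          congr 1
          rw [Finset.sum_eq_single x0]
          · rw [Pi.single_eq_same, one_smul, hw0]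
          · intro y _ hy
            rw [Pi.single_eq_of_ne hy, zero_smul]
          · intro h
            exact absurd (Finset.mem_univ _) h
        rw [e, hsum, h5, h8]
        have e2 : w + (s1 + ∑ x, l1 x • wt x) + (s2 + ∑ x, l2 x • wt x) =
          (w + s1 + s2) + (∑ x, l1 x • wt x + ∑ x, l2 x • wt x) := by abel
        rw [e2, ← hps]
        abel
      · intro x hx
        by_cases hxx : x = x0
        · subst hxx
          rw [hw0, hx0]
          exact ⟨Or.inl rfl, hp⟩
        · refine hadd x ?_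
          intro h
          apply hx
          have : (l1 + l2 + (Pi.single x0 1 : Pm N ι K → ℕ)) x = (l1 + l2) x + (Pi.single x0 1 : Pm N ι K → ℕ) x :=
            rfl
          rw [this, h, Pi.single_eq_of_ne hxx, add_zero]
    rcases h7.split A with h10 | ⟨c, s, h10, h11, h12⟩
    · rcases h4.split A with h13 | ⟨c, s, h13, h14, h15⟩
      · refine ⟨w + s1 + s2, Red.node _ _ _ _ _ _ _ (by simp) h1 h13 h10, l1 + l2, ?_, hadd⟩
        rw [hsum, h5, h8]
        abel
      · obtain ⟨V', hV'⟩ := h7.der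
        refine hgen (w + c + s2) s ?_ h14 (Ctx.left _ _ _ _ _ _ _ _ h1 h15 hV')
        rw [h13]
        abel
    · obtain ⟨U', hU'⟩ := h4.der
      refine hgen (w + s1 + c) s ?_ h11 (Ctx.right _ _ _ _ _ _ _ _ h1 hU' h12)
      rw [h10]
      abel

end Gram

end Pool.Agent.V11233.SR
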